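import Pool.Agent.Y702.G.Stm

/-!
# The choice of the point at two
-/

set_option autoImplicit false
set_option linter.all false

open WeierstrassCurve WeierstrassCurve.Affine Polynomial
open scoped Classical

namespace Pool.Agent.K4H9.SP

open Pool.Agent.Y702.G (pts)

theorem a1_odd {W : WeierstrassCurve ℤ} (hΔ2 : ¬ (2 : ℤ) ∣ W.Δ)
    (hss : Odd ((2 : ℤ) - pts W (ZMod 2))) : Odd W.a₁ := by
  have key : ∀ a1 a2 a3 a4 a6 : ZMod 2, a1 = 0 →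
      (-(a1 ^ 2 + 4 * a2) ^ 2 * (a1 ^ 2 * a6 + 4 * a2 * a6 - a1 * a3 * a4 + a2 * a3 ^ 2 - a4 ^ 2) -
        8 * (2 * a4 + a1 * a3) ^ 3 - 27 * (a3 ^ 2 + 4 * a6) ^ 2 +
        9 * (a1 ^ 2 + 4 * a2) * (2 * a4 + a1 * a3) * (a3 ^ 2 + 4 * a6)) ≠ 0 →
      Even (Fintype.card {P : ZMod 2 × ZMod 2 // P.2 ^ 2 + a1 * P.1 * P.2 + a3 * P.2 =
        P.1 ^ 3 + a2 * P.1 ^ 2 + a4 * P.1 + a6}) := by decide
  by_contra hodd
  have hcard : pts W (ZMod 2) = Fintype.card {P : ZMod 2 × ZMod 2 //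
      P.2 ^ 2 + (W.a₁ : ZMod 2) * P.1 * P.2 + (W.a₃ : ZMod 2) * P.2 =
        P.1 ^ 3 + (W.a₂ : ZMod 2) * P.1 ^ 2 + (W.a₄ : ZMod 2) * P.1 + (W.a₆ : ZMod 2)} := by
    rw [← Nat.card_eq_fintype_card]
    apply Nat.card_congr
    apply Equiv.subtypeEquivRight
    intro P
    rw [Affine.equation_iff]
    exact Iff.rfl
  have h1 := key (W.a₁ : ZMod 2) (W.a₂ : ZMod 2) (W.a₃ : ZMod 2) (W.a₄ : ZMod 2) (W.a₆ : ZMod 2)
    (by
      apply (ZMod.intCast_zmod_eq_zero_iff_dvd _ 2).2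
      rw [Int.not_odd_iff_even, even_iff_two_dvd] at hodd
      exact hodd) (by
      intro h
      apply hΔ2
      apply (ZMod.intCast_zmod_eq_zero_iff_dvd _ 2).1
      rw [← h]
      unfold WeierstrassCurve.Δ WeierstrassCurve.b₈ WeierstrassCurve.b₂ WeierstrassCurve.b₄
        WeierstrassCurve.b₆
      push_cast
      ring)
  rw [← hcard] at h1
  have h2 : Even ((pts W (ZMod 2) : ℕ) : ℤ) := by exact_mod_cast h1
  have h3 : Even ((2 : ℤ) - pts W (ZMod 2)) := (by decide : Even (2 : ℤ)).sub h2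
  exact (Int.not_odd_iff_even.2 h3) hss

theorem tri (m : ℤ) : ∃ j : ℤ, m * (m + 1) = 2 * j := by
  have := Int.even_mul_succ_self m
  obtain ⟨j, hj⟩ := this
  exact ⟨j, by linear_combination hj⟩

theorem choose_X (W : WeierstrassCurve ℤ) {d : ℤ}
    (hd : d = 2 ∨ d = -2 ∨ (d = -1 ∧ Odd W.a₁)) : ∃ X₀ c n : ℤ, (c = 1 ∨ c = 2) ∧
      X₀ ^ 3 + W.b₂ * X₀ ^ 2 + 8 * W.b₄ * X₀ + 16 * W.b₆ = d * c ^ 2 * (1 + 8 * n) ∧
      (d = -1 → ∃ w : ℤ, X₀ = 2 * w) := by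
  have hb2 : W.b₂ = W.a₁ ^ 2 + 4 * W.a₂ := rfl
  have hb4 : W.b₄ = 2 * W.a₄ + W.a₁ * W.a₃ := rfl
  rcases Int.even_or_odd W.a₁ with ⟨k, hk⟩ | ⟨k, hk⟩
  · -- supersingular
    obtain ⟨e, he, hde⟩ : ∃ e : ℤ, (e = 1 ∨ e = -1) ∧ d = 2 * e := by
      rcases hd with h | h | ⟨-, h⟩
      · exact ⟨1, Or.inl rfl, by rw [h]; norm_num⟩
      · exact ⟨-1, Or.inr rfl, by rw [h]; norm_num⟩
      · exfalso
        obtain ⟨l, hl⟩ := h
        omega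
    obtain ⟨f, hf⟩ : ∃ f : ℤ, e = 2 * f + 1 := by
      rcases he with h | h
      · exact ⟨0, by rw [h]; norm_num⟩
      · exact ⟨-1, by rw [h]; norm_num⟩
    have hee : e * e = 1 := by rcases he with h | h <;> rw [h] <;> norm_num
    set β : ℤ := k ^ 2 + W.a₂ with hβ
    set γ : ℤ := W.a₄ + k * W.a₃ with hγ
    have h2 : W.b₂ = 4 * β := by rw [hb2, hk, hβ]; ring
    have h4 : W.b₄ = 2 * γ := by rw [hb4, hk, hγ]; ring
    set m : ℤ := f - β - 2 * γ - W.b₆ with hm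
    obtain ⟨j, hj⟩ := tri m
    set w : ℤ := e - 2 * β - 4 * γ - 2 * W.b₆ with hw
    have hwm : w = 2 * m + 1 := by rw [hw, hm, hf]; ring
    have hw2 : w ^ 2 = 1 + 8 * j := by rw [hwm]; linear_combination 4 * hj
    refine ⟨2 * w, 2, e * (γ * m + j * (w + 2 * β)), Or.inr rfl, ?_, fun h => ⟨w, rfl⟩⟩
    rw [h2, h4, hde]
    have h5 : w ^ 3 + 2 * β * w ^ 2 + 4 * γ * w + 2 * W.b₆ = e + 8 * (γ * m + j * (w + 2 * β)) := by
      have h6 : w + 2 * β + 2 * W.b₆ = e - 4 * γ := by rw [hw]; ring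
      linear_combination (w + 2 * β) * hw2 + h6 + 4 * γ * hwm
    linear_combination 8 * h5 - 64 * (γ * m + j * (w + 2 * β)) * hee
  · -- ordinary
    set β : ℤ := k ^ 2 + k + W.a₂ with hβ
    have h2 : W.b₂ = 1 + 4 * β := by rw [hb2, hk, hβ]; ring
    rcases hd with h | h | ⟨h, -⟩
    · set m : ℤ := -2 * β - 4 * W.b₄ with hm
      obtain ⟨j, hj⟩ := tri m
      set w : ℤ := 2 - W.b₂ - 8 * W.b₄ with hw
      have hwm : w = 2 * m + 1 := by rw [hw, hm, h2]; ring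
      have hw2 : w ^ 2 = 1 + 8 * j := by rw [hwm]; linear_combination 4 * hj
      refine ⟨w, 1, j + W.b₆ + W.b₄ * m - 4 * j * W.b₄, Or.inl rfl, ?_, fun h' => by omega⟩
      rw [h]
      have h6 : w + W.b₂ = 2 - 8 * W.b₄ := by rw [hw]; ring
      linear_combination (w + W.b₂) * hw2 + (1 + 8 * j) * h6 + 8 * W.b₄ * hwm
    · set m : ℤ := -2 - 2 * β - 4 * W.b₄ with hm
      obtain ⟨j, hj⟩ := tri m
      set w : ℤ := -2 - W.b₂ - 8 * W.b₄ with hw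
      have hwm : w = 2 * m + 1 := by rw [hw, hm, h2]; ring
      have hw2 : w ^ 2 = 1 + 8 * j := by rw [hwm]; linear_combination 4 * hj
      refine ⟨w, 1, j - (W.b₆ + W.b₄ * m - 4 * j * W.b₄), Or.inl rfl, ?_, fun h' => by omega⟩
      rw [h]
      have h6 : w + W.b₂ = -2 - 8 * W.b₄ := by rw [hw]; ring
      linear_combination (w + W.b₂) * hw2 + (1 + 8 * j) * h6 + 8 * W.b₄ * hwm
    · set m : ℤ := 1 - β - (W.b₄ + W.b₆) with hm
      obtain ⟨j, hj⟩ := tri m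
      set w : ℤ := 3 - 2 * β - 2 * (W.b₄ + W.b₆) with hw
      have hwm : w = 2 * m + 1 := by rw [hw, hm]; ring
      have hw2 : w ^ 2 = 1 + 8 * j := by rw [hwm]; linear_combination 4 * hj
      refine ⟨2 * w, 2, -1 - (W.b₄ * m + j * (2 * w + W.b₂)), Or.inr rfl, ?_, fun h' => ⟨w, rfl⟩⟩
      rw [h]
      have h6 : 2 * w + W.b₂ + 4 * W.b₄ + 4 * W.b₆ = 7 := by rw [hw, h2]; ring
      linear_combination 4 * (2 * w + W.b₂) * hw2 + 4 * h6 + 16 * W.b₄ * hwm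

end Pool.Agent.K4H9.SP
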