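import Mathlib

/-!
# The difference of two points in the coordinates of the integral model
-/

set_option autoImplicit false
set_option linter.all false

open WeierstrassCurve WeierstrassCurve.Affine
open scoped Classical

namespace Pool.Agent.K4H9.SP

variable {Ω : Type} [Field Ω] {A : Affine Ω} {X Y X' Y' X₀ Y₀ a1 a2 a3 a4 a6 x y x' y' : Ω}

theorem gp_eq (h2 : (2 : Ω) ≠ 0) (ha1 : A.a₁ = 0) (ha3 : A.a₃ = 0) (ha2 : A.a₂ = a1 ^ 2 + 4 * a2)
    (ha4 : A.a₄ = 8 * (2 * a4 + a1 * a3)) (ha6 : A.a₆ = 16 * (a3 ^ 2 + 4 * a6))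
    (hX : X = 4 * x) (hY : Y = 8 * y + 4 * a1 * x + 4 * a3) (hR : A.Nonsingular X Y) :
    y ^ 2 + a1 * x * y + a3 * y = x ^ 3 + a2 * x ^ 2 + a4 * x + a6 := by
  have h1 := hR.1
  rw [Affine.equation_iff, ha1, ha2, ha3, ha4, ha6, hX, hY] at h1
  have h64 : (64 : Ω) ≠ 0 := by
    have : (64 : Ω) = 2 ^ 6 := by norm_num
    rw [this]
    exact pow_ne_zero 6 h2
  apply mul_left_cancel₀ h64
  linear_combination h1

theorem gp (h2 : (2 : Ω) ≠ 0) (ha1 : A.a₁ = 0) (ha3 : A.a₃ = 0) (ha2 : A.a₂ = a1 ^ 2 + 4 * a2)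
    (ha4 : A.a₄ = 8 * (2 * a4 + a1 * a3)) (ha6 : A.a₆ = 16 * (a3 ^ 2 + 4 * a6))
    (hX : X = 4 * x) (hY : Y = 8 * y + 4 * a1 * x + 4 * a3)
    (hX' : X' = 4 * x') (hY' : Y' = 8 * y' + 4 * a1 * x' + 4 * a3)
    {hR : A.Nonsingular X Y} {hR' : A.Nonsingular X' Y'} {h0 : A.Nonsingular X₀ Y₀}
    (hsub : Point.some X Y hR - Point.some X' Y' hR' = Point.some X₀ Y₀ h0) :
    ¬ (x = x' ∧ y = y') ∧ ∃ l : Ω, (x ≠ x' → l * (x - x') = y + y' + a1 * x' + a3) ∧
      (x = x' → l * (2 * y + a1 * x + a3) = 3 * x ^ 2 + 2 * a2 * x + a4 - a1 * y) ∧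
      X₀ = 4 * (l ^ 2 + a1 * l - a2 - x - x') := by
  have h4 : (4 : Ω) ≠ 0 := by
    have : (4 : Ω) = 2 ^ 2 := by norm_num
    rw [this]
    exact pow_ne_zero 2 h2
  have hne : ¬ (X = X' ∧ Y = Y') := by
    rintro ⟨rfl, rfl⟩
    rw [sub_self] at hsub
    exact Point.some_ne_zero _ hsub.symm
  have hnx : x ≠ x' ↔ X ≠ X' := by
    rw [hX, hX']
    constructor
    · intro h h'
      exact h (mul_left_cancel₀ h4 h')
    · intro h h'
      exact h (by rw [h'])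
  refine ⟨?_, ?_⟩
  · rintro ⟨h1, h3⟩
    exact hne ⟨by rw [hX, hX', h1], by rw [hY, hY', h1, h3]⟩
  have hn : ∀ u v : Ω, A.negY u v = -v := by
    intro u v
    simp [Affine.negY, ha1, ha3]
  rw [sub_eq_add_neg, Point.neg_some] at hsub
  have hxy : ¬ (X = X' ∧ Y = A.negY X' (A.negY X' Y')) := by
    rw [hn, hn, neg_neg]; exact hne
  rw [Point.add_some hxy] at hsub
  have hX0 := (Point.some.inj hsub).1
  have e1 : X₀ = (A.slope X X' Y (A.negY X' Y')) ^ 2 - (a1 ^ 2 + 4 * a2) - X - X' := by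
    rw [← hX0]
    unfold Affine.addX
    rw [ha1, ha2]
    ring
  set Λ := A.slope X X' Y (A.negY X' Y') with hΛ
  obtain ⟨l, hl⟩ : ∃ l : Ω, 2 * l = Λ - a1 := ⟨(Λ - a1) / 2, by field_simp⟩
  refine ⟨l, ?_, ?_, ?_⟩
  · intro h
    have h5 := hnx.1 h
    have h6 : Λ * (X - X') = Y + Y' := by
      rw [hΛ, slope_of_X_ne h5, hn, sub_neg_eq_add, div_mul_cancel₀ _ (sub_ne_zero.2 h5)]
    rw [hX, hX', hY, hY'] at h6
    have h8 : (8 : Ω) ≠ 0 := by
      have : (8 : Ω) = 2 ^ 3 := by norm_num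
      rw [this]
      exact pow_ne_zero 3 h2
    apply mul_left_cancel₀ h8
    linear_combination 4 * (x - x') * hl + h6
  · intro h
    have h5 : X = X' := by rw [hX, hX', h]
    have h6 : Y ≠ A.negY X' (A.negY X' Y') := fun h' => hxy ⟨h5, h'⟩
    have hYY : Y' = -Y := by
      have q1 := hR.1
      have q2 := hR'.1
      rw [Affine.equation_iff, ha1, ha3] at q1 q2
      rw [← h5] at q2
      have q3 : (Y - Y') * (Y + Y') = 0 := by linear_combination q1 - q2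
      rcases mul_eq_zero.1 q3 with q | q
      · exact absurd ⟨h5, sub_eq_zero.1 q⟩ hne
      · linear_combination q
    have h7 : Y - A.negY X Y ≠ 0 := by
      rw [hn]
      intro h'
      apply hne
      refine ⟨h5, ?_⟩
      rw [hYY]
      linear_combination h'
    have h8 : Λ * (2 * Y) = 3 * X ^ 2 + 2 * (a1 ^ 2 + 4 * a2) * X + 8 * (2 * a4 + a1 * a3) := by
      have h9 : 2 * Y = Y - A.negY X Y := by rw [hn]; ring
      rw [hΛ, slope_of_Y_ne h5 h6, h9, div_mul_cancel₀ _ h7,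
        ha1, ha2, ha4]
      ring
    rw [hX, hY] at h8
    have h16 : (16 : Ω) ≠ 0 := by
      have : (16 : Ω) = 2 ^ 4 := by norm_num
      rw [this]
      exact pow_ne_zero 4 h2
    apply mul_left_cancel₀ h16
    linear_combination 8 * (2 * y + a1 * x + a3) * hl + h8
  · rw [hX, hX'] at e1
    linear_combination e1 - (Λ + 2 * l + a1) * hl

end Pool.Agent.K4H9.SP
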