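import Pool.Agent.K4H9.SP.ValB

/-!
# Smoothness of the reduction
-/

set_option autoImplicit false
set_option linter.all false

open scoped NNReal
open WeierstrassCurve

namespace Pool.Agent.K4H9.SP

variable {Ω : Type} [Field Ω] (w : Valuation Ω ℝ≥0)

theorem hns_of (W : WeierstrassCurve ℤ) (hint : ∀ n : ℤ, w (n : Ω) ≤ 1) (hΔ : w ((W.Δ : ℤ) : Ω) = 1)
    {x y : Ω} (e : y ^ 2 + (W.a₁ : Ω) * x * y + (W.a₃ : Ω) * y =
      x ^ 3 + (W.a₂ : Ω) * x ^ 2 + (W.a₄ : Ω) * x + (W.a₆ : Ω))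
    (hx : w x ≤ 1) (hy : w y ≤ 1) (hh : w (2 * y + (W.a₁ : Ω) * x + (W.a₃ : Ω)) < 1) :
    w (3 * x ^ 2 + 2 * (W.a₂ : Ω) * x + (W.a₄ : Ω) - (W.a₁ : Ω) * y) = 1 := by
  set O := w.valuationSubring with hO
  let κ := IsLocalRing.ResidueField O
  let X : O := ⟨x, hx⟩
  let Y : O := ⟨y, hy⟩
  have red0 : ∀ z : O, IsLocalRing.residue O z = 0 ↔ w (z : Ω) < 1 := by
    intro z
    rw [IsLocalRing.residue_eq_zero_iff]
    have := Valuation.mem_maximalIdeal_iff (v := w) (a := z)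
    exact this
  have eO : Y ^ 2 + (W.a₁ : O) * X * Y + (W.a₃ : O) * Y =
      X ^ 3 + (W.a₂ : O) * X ^ 2 + (W.a₄ : O) * X + (W.a₆ : O) := by
    apply Subtype.ext
    push_cast
    exact e
  have hD : (W.map (Int.castRingHom κ)).Δ ≠ 0 := by
    rw [WeierstrassCurve.map_Δ]
    intro h0
    have h1 : IsLocalRing.residue O ((W.Δ : ℤ) : O) = 0 := by
      rw [map_intCast]
      exact h0
    rw [red0] at h1
    have h2 : (((W.Δ : ℤ) : O) : Ω) = ((W.Δ : ℤ) : Ω) := by push_cast; rfl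
    rw [h2, hΔ] at h1
    exact lt_irrefl _ h1
  have hE : (W.map (Int.castRingHom κ)).toAffine.Equation (IsLocalRing.residue O X) (IsLocalRing.residue O Y) := by
    rw [Affine.equation_iff]
    have h1 := congrArg (IsLocalRing.residue O) eO
    simp only [map_add, map_mul, map_pow, map_intCast] at h1
    exact h1
  have hN := (Affine.equation_iff_nonsingular_of_Δ_ne_zero hD).1 hE
  rw [Affine.nonsingular_iff'] at hN
  have hWy : IsLocalRing.residue O (2 * Y + (W.a₁ : O) * X + (W.a₃ : O)) = 0 := by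
    rw [red0]
    push_cast
    exact hh
  have hWx : IsLocalRing.residue O (3 * X ^ 2 + 2 * (W.a₂ : O) * X + (W.a₄ : O) - (W.a₁ : O) * Y) ≠ 0 := by
    rcases hN.2 with h | h
    · intro h0
      apply h
      have h1 : (IsLocalRing.residue O) ((W.a₁ : O) * Y - (3 * X ^ 2 + 2 * (W.a₂ : O) * X + (W.a₄ : O))) = 0 := by
        have e1 : (W.a₁ : O) * Y - (3 * X ^ 2 + 2 * (W.a₂ : O) * X + (W.a₄ : O)) =
          -(3 * X ^ 2 + 2 * (W.a₂ : O) * X + (W.a₄ : O) - (W.a₁ : O) * Y) := by ring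
        rw [e1, map_neg, h0, neg_zero]
      simp only [map_add, map_sub, map_mul, map_pow, map_intCast, map_ofNat] at h1
      exact h1
    · exfalso
      apply h
      simp only [map_add, map_sub, map_mul, map_pow, map_intCast, map_ofNat] at hWy
      exact hWy
  rw [Ne, red0, not_lt] at hWx
  push_cast at hWx
  apply le_antisymm _ hWx
  have i1 := hint W.a₁
  have i2 := hint W.a₂
  have i4 := hint W.a₄
  have t3 : w (3 : Ω) ≤ 1 := by simpa using hint 3
  have t2 : w (2 : Ω) ≤ 1 := by simpa using hint 2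
  refine w_sub w (w_add w (w_add w (w_mul1 w t3 ?_) (w_mul1 w (w_mul1 w t2 i2) hx)) i4) (w_mul1 w i1 hy)
  rw [map_pow]; exact pow_le_one₀ zero_le hx

end Pool.Agent.K4H9.SP
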