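import Pool.Agent.K4H9.SP.Qd
import Pool.Agent.K4H9.SP.Ns
import Pool.Agent.K4H9.SP.Gp

/-!
# The value of the first coordinate of `R - τ R`
-/

set_option autoImplicit false
set_option linter.all false

open scoped NNReal Classical
open WeierstrassCurve WeierstrassCurve.Affine

namespace Pool.Agent.K4H9.SP

open Pool.Agent.R425.G (LD u_int)

theorem w_odd {Ω : Type} [Field Ω] (w : Valuation Ω ℝ≥0) (h2 : w 2 < 1) {n : ℤ} (hn : ¬ (2 : ℤ) ∣ n) :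
    w (n : Ω) = 1 := by
  obtain ⟨k, hk⟩ : ∃ k : ℤ, n = 2 * k + 1 := by
    have : Odd n := by rw [← Int.not_even_iff_odd, even_iff_two_dvd]; exact hn
    exact this
  have h3 : w (2 * (k : Ω)) < w 1 := by
    rw [map_mul, map_one]
    calc w 2 * w (k : Ω) ≤ w 2 * 1 := mul_le_mul' le_rfl (u_int w k)
      _ < 1 := by rw [mul_one]; exact h2
  have e : (n : Ω) = 1 + 2 * (k : Ω) := by rw [hk]; push_cast; ring
  rw [e, w_dom w h3, map_one]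

variable {L Ω : Type} [Field L] [Field Ω] [Algebra L Ω] [IsGalois L Ω]

theorem fin_val {w : Valuation Ω ℝ≥0} (hw : ∀ (σ : Ω ≃ₐ[L] Ω) (x : Ω), w (σ x) = w x)
    (hL : LD (w.comap (algebraMap L Ω)) 2) {s : Ω} {τ₀ : Ω ≃ₐ[L] Ω} (h : QD s τ₀)
    {g : Ω} (hg : w g ^ 2 = w 2) (t : L) (hgs : g = algebraMap L Ω t + s)
    (hD : w 2 * w s ≤ w g ^ 2) (W : WeierstrassCurve ℤ) (hΔ2 : ¬ (2 : ℤ) ∣ W.Δ)
    {A : Affine Ω} (ha1 : A.a₁ = 0) (ha3 : A.a₃ = 0) (ha2 : A.a₂ = (W.b₂ : Ω))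
    (ha4 : A.a₄ = 8 * (W.b₄ : Ω)) (ha6 : A.a₆ = 16 * (W.b₆ : Ω))
    {X Y X₀ Y₀ : Ω} (hX : FF L s X) (hY : FF L s Y)
    {hR : A.Nonsingular X Y} {hR' : A.Nonsingular (τ₀ X) (τ₀ Y)} {h0 : A.Nonsingular X₀ Y₀}
    (hsub : Point.some X Y hR - Point.some (τ₀ X) (τ₀ Y) hR' = Point.some X₀ Y₀ h0) :
    w 4 ≤ w X₀ * (w 2 * w s) ^ 2 := by
  have h2 := h.two
  have h2lt := w2lt hL
  have hint : ∀ n : ℤ, w (n : Ω) ≤ 1 := fun n => u_int w n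
  have hb2 : W.b₂ = W.a₁ ^ 2 + 4 * W.a₂ := rfl
  have hb4 : W.b₄ = 2 * W.a₄ + W.a₁ * W.a₃ := rfl
  have hb6 : W.b₆ = W.a₃ ^ 2 + 4 * W.a₆ := rfl
  have ha2' : A.a₂ = (W.a₁ : Ω) ^ 2 + 4 * (W.a₂ : Ω) := by rw [ha2, hb2]; push_cast; ring
  have ha4' : A.a₄ = 8 * (2 * (W.a₄ : Ω) + (W.a₁ : Ω) * (W.a₃ : Ω)) := by
    rw [ha4, hb4]; push_cast; ring
  have ha6' : A.a₆ = 16 * ((W.a₃ : Ω) ^ 2 + 4 * (W.a₆ : Ω)) := by
    rw [ha6, hb6]; push_cast; ring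
  have h4 : (4 : Ω) ≠ 0 := by
    have : (4 : Ω) = 2 ^ 2 := by norm_num
    rw [this]
    exact pow_ne_zero 2 h2
  set x : Ω := X / 4 with hx
  set y : Ω := (Y / 4 - (W.a₁ : Ω) * x - (W.a₃ : Ω)) / 2 with hy
  have eX : X = 4 * x := by rw [hx]; field_simp
  have eY : Y = 8 * y + 4 * (W.a₁ : Ω) * x + 4 * (W.a₃ : Ω) := by
    have e1 : 2 * y = Y / 4 - (W.a₁ : Ω) * x - (W.a₃ : Ω) := by rw [hy]; field_simp
    have e2 : 4 * (Y / 4) = Y := by field_simp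
    linear_combination (-1 : Ω) * e2 - 4 * e1
  have fx : FF L s x := by
    intro τ hτ
    rw [hx, map_div₀, hX τ hτ, map_ofNat]
  have fy : FF L s y := by
    intro τ hτ
    rw [hy, map_div₀, map_sub, map_sub, map_div₀, hY τ hτ, map_mul, fx τ hτ, map_intCast,
      map_intCast, map_ofNat, map_ofNat]
  have eX' : τ₀ X = 4 * τ₀ x := by rw [eX, map_mul, map_ofNat]
  have eY' : τ₀ Y = 8 * τ₀ y + 4 * (W.a₁ : Ω) * τ₀ x + 4 * (W.a₃ : Ω) := by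
    rw [eY]
    simp only [map_add, map_mul, map_ofNat, map_intCast]
  have q1 := gp_eq h2 ha1 ha3 ha2' ha4' ha6' eX eY hR
  have q2 := gp_eq h2 ha1 ha3 ha2' ha4' ha6' eX' eY' hR'
  obtain ⟨q3, l, q4, q5, q6⟩ := gp h2 ha1 ha3 ha2' ha4' ha6' eX eY eX' eY' hsub
  have hgp : 0 < w g := by
    rw [pos_iff_ne_zero]
    intro h'
    rw [h', zero_pow two_ne_zero] at hg
    exact w2ne hL hg.symm
  have hg1 : w g < 1 := by
    by_contra hcon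
    rw [not_lt] at hcon
    have := one_le_pow₀ (n := 2) hcon
    rw [hg] at this
    exact absurd h2lt (not_lt.2 this)
  have w3 : w (3 : Ω) = 1 := by
    have := w_odd w h2lt (n := 3) (by norm_num)
    simpa using this
  have main := valB w (a1 := (W.a₁ : Ω)) (a2 := (W.a₂ : Ω)) (a3 := (W.a₃ : Ω)) (a4 := (W.a₄ : Ω))
    (a6 := (W.a₆ : Ω)) (x := x) (y := y) (x' := τ₀ x) (y' := τ₀ y) (l := l) (ϖ := w g)
    (D := w 2 * w s) (hint _) (hint _) (hint _) (hint _) (hint _) h2lt.le w3 q1 q2 (hw _ _)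
    (hw _ _) q3 hgp hg1 hD (fun hle => h.v1 hL hg t hgs fx hle) (fun hle => h.v1 hL hg t hgs fy hle)
    (h.v2 hL hg t hgs fx) (h.v2 hL hg t hgs fy)
    (fun hlt => h.v3 hL hg hw (fy.div fx) hlt)
    (fun hx1 hy1 hh => hns_of w W hint (w_odd w h2lt hΔ2) q1 hx1 hy1 hh) q4 q5
  rw [q6, map_mul, mul_assoc]
  calc w 4 = w 4 * 1 := (mul_one _).symm
    _ ≤ _ := mul_le_mul' le_rfl main

end Pool.Agent.K4H9.SP
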