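import Pool.Agent.K4H9.SP.Kum
import Pool.Agent.K4H9.SP.Fv
import Pool.Agent.R425.G.Ur

/-!
# The local part
-/

set_option autoImplicit false
set_option linter.all false

open scoped NNReal Classical
open WeierstrassCurve WeierstrassCurve.Affine

namespace Pool.Agent.K4H9.SP

open Pool.Agent.TH115.GD
open Pool.Agent.Y702.G (sh base pts)
open Pool.Agent.R425.G

theorem rootsC {V : WeierstrassCurve ℚ} (h1 : V.a₁ = 0) (h3 : V.a₃ = 0) (hΔ : V.Δ ≠ 0)
    (Ω : Type) [Field Ω] [Algebra ℚ Ω] [IsAlgClosed Ω] :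
    ∃ a b c : Ω, IsC (V.baseChange Ω).toAffine a b c := by
  haveI : CharZero Ω := algebraRat.charZero Ω
  obtain ⟨hd, hm⟩ := cubP_deg (W := V) (F := Ω)
  obtain ⟨a, ha⟩ := IsAlgClosed.exists_root (cubP V Ω) (by
    rw [Polynomial.degree_eq_natDegree hm.ne_zero, hd]
    norm_num)
  rw [Polynomial.IsRoot.def, cubP_eval] at ha
  obtain ⟨b, c, h⟩ := exists_isC (K := ℚ) (Ω := Ω) (W := V) h1 h3 hΔ two_ne_zero ha
  exact ⟨a, b, c, h⟩

theorem some_congr {F : Type} [Field F] {A : Affine F} {x y x' y' : F} {h : A.Nonsingular x y}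
    {h' : A.Nonsingular x' y'} (hx : x = x') (hy : y = y') : Point.some x y h = Point.some x' y' h' := by
  subst hx hy
  rfl

theorem local_part {L Ω' : Type} [Field L] [Field Ω'] [Algebra L Ω'] [Algebra ℚ L]
    [Algebra ℚ Ω'] [IsScalarTower ℚ L Ω'] [IsAlgClosed Ω'] [IsGalois L Ω'] (w : Valuation Ω' ℝ≥0)
    (hw : ∀ (σ : Ω' ≃ₐ[L] Ω') (x : Ω'), w (σ x) = w x)
    (hL : LD (w.comap (algebraMap L Ω')) 2)
    (W : WeierstrassCurve ℤ) (hΔ2 : ¬ (2 : ℤ) ∣ W.Δ) {d X₀ c n : ℤ}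
    (hd : d = 2 ∨ d = -2 ∨ d = -1) (hc : c = 1 ∨ c = 2)
    (hg : X₀ ^ 3 + W.b₂ * X₀ ^ 2 + 8 * W.b₄ * X₀ + 16 * W.b₆ = d * c ^ 2 * (1 + 8 * n))
    (hev : d = -1 → ∃ w : ℤ, X₀ = 2 * w) :
    (∃ y : L, algebraMap ℚ L (cub (sh W) (X₀ : ℚ)) = (d : L) * y ^ 2) ∧
      ¬ Dl (sh W) L Ω' (fun e => (X₀ : Ω') - e.1) := by
  haveI : CharZero L := algebraRat.charZero _
  haveI : CharZero Ω' := algebraRat.charZero _
  have hW : W.Δ ≠ 0 := fun h => hΔ2 (by rw [h]; exact dvd_zero _)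
  have h2lt := w2lt hL
  have h2ne := w2ne hL
  obtain ⟨y₁, hy₁⟩ : ∃ y₁ : L, y₁ ^ 2 = 1 + 8 * (n : L) := by
    apply hL.sq
    have e : (1 + 8 * (n : L)) - 1 = 4 * (2 * (n : L)) := by ring
    rw [e, map_mul]
    have h3 : (w.comap (algebraMap L Ω')) (2 * (n : L)) < 1 := by
      rw [Valuation.comap_apply, map_mul, map_ofNat, map_intCast, map_mul]
      calc w 2 * w (n : Ω') ≤ w 2 * 1 := mul_le_mul' le_rfl (u_int w n)
        _ < 1 := by rw [mul_one]; exact h2lt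
    have h4 : 0 < (w.comap (algebraMap L Ω')) (4 : L) := by
      rw [Valuation.comap_apply, map_ofNat, pos_iff_ne_zero, Valuation.ne_zero_iff]
      norm_num
    calc (w.comap (algebraMap L Ω')) (4 : L) * (w.comap (algebraMap L Ω')) (2 * (n : L))
        < (w.comap (algebraMap L Ω')) (4 : L) * 1 := mul_lt_mul_of_pos_left h3 h4
      _ = _ := mul_one _
  have hy0 : y₁ ≠ 0 := by
    rintro rfl
    rw [zero_pow two_ne_zero] at hy₁
    have h3 : ((1 + 8 * n : ℤ) : L) = 0 := by push_cast; exact hy₁.symm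
    have h4 : 1 + 8 * n = 0 := by exact_mod_cast h3
    omega
  have hd0 : d ≠ 0 := by rcases hd with h | h | h <;> rw [h] <;> norm_num
  have hc0 : c ≠ 0 := by rcases hc with h | h <;> rw [h] <;> norm_num
  have hcubL : (X₀ : L) ^ 3 + (W.b₂ : L) * (X₀ : L) ^ 2 + 8 * (W.b₄ : L) * (X₀ : L) +
      16 * (W.b₆ : L) = (d : L) * ((c : L) * y₁) ^ 2 := by
    have h5 := congrArg (Int.cast : ℤ → L) hg
    push_cast at h5
    rw [mul_pow, hy₁, ← mul_assoc]
    exact h5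
  refine ⟨⟨c * y₁, ?_⟩, ?_⟩
  · rw [← hcubL, cub_sh]
    simp only [map_add, map_mul, map_pow, map_ofNat, map_intCast]
  · intro hD
    obtain ⟨a, b, c', hC⟩ := rootsC (iv_sh W hW).a1 (iv_sh W hW).a3 (iv_sh W hW).Δ Ω'
    obtain ⟨s, hs⟩ := IsAlgClosed.exists_pow_nat_eq ((d : ℤ) : Ω') (n := 2) (by norm_num)
    have hdΩ : ((d : ℤ) : Ω') ≠ 0 := by exact_mod_cast hd0
    have hs0 : s ≠ 0 := by
      rintro rfl
      rw [zero_pow two_ne_zero] at hs
      exact hdΩ hs.symm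
    have hsgn : ∀ τ : Ω' ≃ₐ[L] Ω', τ s = s ∨ τ s = -s := by
      intro τ
      apply sq_eq_sq_iff_eq_or_eq_neg.1
      rw [← map_pow, hs, map_intCast]
    have hws : (d = -1 → w s = 1) ∧ (d ≠ -1 → w s ^ 2 = w 2) := by
      constructor
      · intro h
        have h1 : w s ^ 2 = 1 := by
          rw [← map_pow, hs, h]
          push_cast
          rw [Valuation.map_neg, map_one]
        exact (pow_eq_one_iff_of_nonneg zero_le two_ne_zero).1 h1
      · intro h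
        rcases hd with h1 | h1 | h1
        · rw [← map_pow, hs, h1]; push_cast; rfl
        · rw [← map_pow, hs, h1]; push_cast; rw [Valuation.map_neg]
        · exact absurd h1 h
    obtain ⟨t, g, hgs, hgw, hDw⟩ : ∃ (t : L) (g : Ω'), g = algebraMap L Ω' t + s ∧
        w g ^ 2 = w 2 ∧ w 2 * w s ≤ w g ^ 2 := by
      by_cases h : d = -1
      · have h1 := hws.1 h
        have e : (1 + s) ^ 2 = 2 * s := by
          rw [h] at hs
          push_cast at hs
          linear_combination hs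
        have h3 : w (1 + s) ^ 2 = w 2 := by
          rw [← map_pow, e, map_mul, h1, mul_one]
        refine ⟨1, 1 + s, by rw [map_one], h3, ?_⟩
        rw [h3, h1, mul_one]
      · have h1 := hws.2 h
        refine ⟨0, s, by rw [map_zero, zero_add], h1, ?_⟩
        rw [h1]
        have h3 : w s ≤ 1 := by
          by_contra hcon
          rw [not_le] at hcon
          have := one_lt_pow₀ hcon (n := 2) two_ne_zero
          rw [h1] at this
          exact absurd h2lt (not_lt.2 this.le)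
        calc w 2 * w s ≤ w 2 * 1 := mul_le_mul' le_rfl h3
          _ = w 2 := mul_one _
    obtain ⟨τ₀, hτ₀⟩ : ∃ τ₀ : Ω' ≃ₐ[L] Ω', τ₀ s = -s := by
      by_contra hcon
      rw [not_exists] at hcon
      obtain ⟨z, hz⟩ := fixedL (L := L) (x := s) fun σ => (hsgn σ).resolve_right (hcon σ)
      have h1 : g = algebraMap L Ω' (t + z) := by rw [hgs, map_add, hz]
      have h0 : t + z ≠ 0 := by
        intro h0
        rw [h1, h0, map_zero, map_zero, zero_pow two_ne_zero] at hgw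
        exact h2ne hgw.symm
      obtain ⟨k, hk⟩ := disc2 hL h0
      rw [h1, hk, ← zpow_natCast, ← zpow_mul] at hgw
      have h3 := zinj hL (hgw.trans (zpow_one (w 2)).symm)
      push_cast at h3
      omega
    have hQD : QD s τ₀ := ⟨two_ne_zero, hsgn, hs0, hτ₀⟩
    set A : Affine Ω' := ((sh W).baseChange Ω').toAffine with hA
    have hA1 : A.a₁ = 0 := hC.a1
    have hA3 : A.a₃ = 0 := hC.a3
    have hA2 : A.a₂ = (W.b₂ : Ω') := by
      show algebraMap ℚ Ω' ((W.b₂ : ℤ) : ℚ) = _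
      rw [map_intCast]
    have hA4 : A.a₄ = 8 * (W.b₄ : Ω') := by
      show algebraMap ℚ Ω' (8 * ((W.b₄ : ℤ) : ℚ)) = _
      rw [map_mul, map_ofNat, map_intCast]
    have hA6 : A.a₆ = 16 * (W.b₆ : Ω') := by
      show algebraMap ℚ Ω' (16 * ((W.b₆ : ℤ) : ℚ)) = _
      rw [map_mul, map_ofNat, map_intCast]
    set yy : Ω' := algebraMap L Ω' ((c : L) * y₁) with hyy
    have hyy0 : yy ≠ 0 := by
      rw [hyy, Ne, map_eq_zero]
      exact mul_ne_zero (by exact_mod_cast hc0) hy0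
    have hcubΩ : (X₀ : Ω') ^ 3 + (W.b₂ : Ω') * (X₀ : Ω') ^ 2 + 8 * (W.b₄ : Ω') * (X₀ : Ω') +
      16 * (W.b₆ : Ω') = (d : Ω') * yy ^ 2 := by
      have h5 := congrArg (algebraMap L Ω') hcubL
      simp only [map_add, map_mul, map_pow, map_ofNat, map_intCast] at h5
      rw [hyy, map_mul, map_intCast]
      exact h5
    have hE : A.Equation (X₀ : Ω') (s * yy) := by
      rw [Affine.equation_iff, hA1, hA2, hA3, hA4, hA6]
      linear_combination yy ^ 2 * hs - hcubΩ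
    have h0 : A.Nonsingular (X₀ : Ω') (s * yy) := by
      rw [Affine.nonsingular_iff']
      refine ⟨hE, Or.inr ?_⟩
      rw [hA1, hA3]
      have : 2 * (s * yy) + 0 * (X₀ : Ω') + 0 = 2 * (s * yy) := by ring
      rw [this]
      exact mul_ne_zero two_ne_zero (mul_ne_zero hs0 hyy0)
    have hX : ∀ e : Rt (sh W) Ω', (X₀ : Ω') ≠ e.1 := by
      intro e he
      have h1 := e.2
      rw [← he, cub_sh, hcubΩ] at h1
      exact mul_ne_zero hdΩ (pow_ne_zero 2 hyy0) h1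
    have hrsX : ∀ τ : Ω' ≃ₐ[L] Ω', (rs ℚ τ) (X₀ : Ω') = (X₀ : Ω') := fun τ => map_intCast _ _
    have hrsY : ∀ τ : Ω' ≃ₐ[L] Ω', (rs ℚ τ) (s * yy) = τ s * yy := by
      intro τ
      show τ (s * yy) = _
      rw [map_mul, hyy, τ.commutes]
    have hp : ∀ τ : Ω' ≃ₐ[L] Ω', τ s = s →
        act (sh W) (rs ℚ τ) (Point.some (X₀ : Ω') (s * yy) h0 : Pt (sh W) Ω') =
          Point.some (X₀ : Ω') (s * yy) h0 := by
      intro τ hτ
      obtain ⟨h1, h3⟩ := act_some (sh W) (rs ℚ τ) h0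
      rw [h3]
      exact some_congr (hrsX τ) (by rw [hrsY, hτ])
    have hm : ∀ τ : Ω' ≃ₐ[L] Ω', τ s = -s →
        act (sh W) (rs ℚ τ) (Point.some (X₀ : Ω') (s * yy) h0 : Pt (sh W) Ω') =
          -Point.some (X₀ : Ω') (s * yy) h0 := by
      intro τ hτ
      obtain ⟨h1, h3⟩ := act_some (sh W) (rs ℚ τ) h0
      rw [h3, Point.neg_some]
      apply some_congr (hrsX τ)
      rw [hrsY, hτ]
      have : A.negY (X₀ : Ω') (s * yy) = -(s * yy) := by
        simp [Affine.negY, hA1, hA3]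
      rw [this, neg_mul]
    obtain ⟨R, hR1, hR2⟩ := kum (L := L) hC h0 hX hsgn hp hm hD
    have hR2' := hR2 τ₀ hτ₀
    rcases R with _ | ⟨X, Y, hR⟩
    · have h1 : (Point.zero : Pt (sh W) Ω') = 0 := rfl
      rw [h1, map_zero, sub_zero] at hR2'
      exact Point.some_ne_zero _ hR2'.symm
    have fXY : ∀ τ : Ω' ≃ₐ[L] Ω', τ s = s → τ X = X ∧ τ Y = Y := by
      intro τ hτ
      have h1 := hR1 τ hτ
      obtain ⟨h3, h4⟩ := act_some (sh W) (rs ℚ τ) hR
      rw [h4] at h1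
      exact Point.some.inj h1
    obtain ⟨h3, h4⟩ := act_some (sh W) (rs ℚ τ₀) hR
    rw [h4] at hR2'
    have hfin := fin_val (L := L) hw hL hQD hgw t hgs hDw W hΔ2 hA1 hA3 hA2 hA4 hA6
      (X := X) (Y := Y) (fun τ hτ => (fXY τ hτ).1) (fun τ hτ => (fXY τ hτ).2) (hR := hR)
      (hR' := h3) (h0 := h0) hR2'
    have h4' : w (4 : Ω') = w 2 ^ 2 := by
      rw [← map_pow]; norm_num
    have hp2 : 0 < w (2 : Ω') := pos_of_ne_zero h2ne
    rw [h4', mul_pow] at hfin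
    by_cases h : d = -1
    · rw [hws.1 h, one_pow, mul_one] at hfin
      obtain ⟨w', hw'⟩ := hev h
      have h5 : w (X₀ : Ω') < 1 := by
        rw [hw']
        push_cast
        rw [map_mul]
        calc w 2 * w (w' : Ω') ≤ w 2 * 1 := mul_le_mul' le_rfl (u_int w w')
          _ < 1 := by rw [mul_one]; exact h2lt
      have h6 : w (X₀ : Ω') * w 2 ^ 2 < 1 * w 2 ^ 2 := mul_lt_mul_of_pos_right h5 (pow_pos hp2 2)
      rw [one_mul] at h6
      exact absurd hfin (not_le.2 h6)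
    · rw [hws.2 h] at hfin
      have h6 : w (X₀ : Ω') * (w 2 ^ 2 * w 2) < w 2 ^ 2 := by
        calc w (X₀ : Ω') * (w 2 ^ 2 * w 2) ≤ 1 * (w 2 ^ 2 * w 2) :=
              mul_le_mul' (u_int w X₀) le_rfl
          _ = w 2 ^ 2 * w 2 := one_mul _
          _ < w 2 ^ 2 * 1 := mul_lt_mul_of_pos_left h2lt (pow_pos hp2 2)
          _ = w 2 ^ 2 := mul_one _
      exact absurd hfin (not_le.2 h6)

end Pool.Agent.K4H9.SP
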