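import Pool.Agent.K4H53.CX.Stm2
import Pool.Agent.R425.G.Ld
import Pool.Agent.K4H9.SP.Loc
import Pool.Agent.K4H9.SP.Ar

/-!
# The point at two
-/

set_option autoImplicit false
set_option linter.all false

open NumberField IsDedekindDomain WithZero WeierstrassCurve Filter Topology
open scoped Classical NNReal

namespace Pool.Agent.K4H9.SP

open Pool.Agent.TH115.GD
open Pool.Agent.Y702.G (sh base pts)
open Pool.Agent.R425.G

theorem local_part' (L Ω' : Type) (iL : Field L) (iΩ : Field Ω') (i1 : Algebra L Ω')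
    (i2 : Algebra ℚ L) (i3 : Algebra ℚ Ω') (i4 : IsScalarTower ℚ L Ω') (i5 : IsAlgClosed Ω')
    (i6 : IsGalois L Ω') (w : Valuation Ω' ℝ≥0)
    (hw : ∀ (σ : Ω' ≃ₐ[L] Ω') (x : Ω'), w (σ x) = w x)
    (hL : LD (w.comap (algebraMap L Ω')) 2)
    (W : WeierstrassCurve ℤ) (hΔ2 : ¬ (2 : ℤ) ∣ W.Δ) {d X₀ c n : ℤ}
    (hd : d = 2 ∨ d = -2 ∨ d = -1) (hc : c = 1 ∨ c = 2)
    (hg : X₀ ^ 3 + W.b₂ * X₀ ^ 2 + 8 * W.b₄ * X₀ + 16 * W.b₆ = d * c ^ 2 * (1 + 8 * n))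
    (hev : d = -1 → ∃ w : ℤ, X₀ = 2 * w) :
    (∃ y : L, algebraMap ℚ L (cub (sh W) (X₀ : ℚ)) = (d : L) * y ^ 2) ∧
      ¬ Dl (sh W) L Ω' (fun e => (X₀ : Ω') - e.1) :=
  local_part w hw hL W hΔ2 hd hc hg hev

theorem s_point : Pool.Agent.K4H53.CX.S_POINT := by
  intro W hΔ2 d hd
  have hd' : d = 2 ∨ d = -2 ∨ (d = -1 ∧ Odd W.a₁) := by
    rcases hd with h | h | ⟨h, h'⟩
    · exact Or.inl h
    · exact Or.inr (Or.inl h)
    · exact Or.inr (Or.inr ⟨h, a1_odd hΔ2 h'⟩)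
  have hd'' : d = 2 ∨ d = -2 ∨ d = -1 := by
    rcases hd with h | h | ⟨h, h'⟩
    · exact Or.inl h
    · exact Or.inr (Or.inl h)
    · exact Or.inr (Or.inr h)
  obtain ⟨X₀, c, n, hc, hg, hev⟩ := choose_X W hd'
  refine ⟨X₀, ?_, ?_⟩
  · rw [cub_sh]
    intro h
    have h1 : ((X₀ ^ 3 + W.b₂ * X₀ ^ 2 + 8 * W.b₄ * X₀ + 16 * W.b₆ : ℤ) : ℚ) = 0 := by
      push_cast
      exact h
    have h2 : X₀ ^ 3 + W.b₂ * X₀ ^ 2 + 8 * W.b₄ * X₀ + 16 * W.b₆ = 0 := by exact_mod_cast h1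
    rw [hg] at h2
    rcases mul_eq_zero.1 h2 with h3 | h3
    · rcases mul_eq_zero.1 h3 with h4 | h4
      · rcases hd'' with h5 | h5 | h5 <;> rw [h5] at h4 <;> norm_num at h4
      · have h6 := pow_eq_zero_iff (two_ne_zero) |>.1 h4
        rcases hc with h5 | h5 <;> rw [h5] at h6 <;> norm_num at h6
    · omega
  · intro p hp
    obtain ⟨w, hσ, hL, -⟩ := exists_ld p
    rw [hp] at hL
    haveI i0 : CharZero (p.adicCompletion ℚ) := algebraRat.charZero _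
    haveI : IsGalois (p.adicCompletion ℚ) (AlgebraicClosure (p.adicCompletion ℚ)) := inferInstance
    refine local_part' _ _ _ _ _ _ _ ?_ ?_ ?_ w hσ hL W hΔ2 hd'' hc hg hev
    all_goals infer_instance

end Pool.Agent.K4H9.SP
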