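import Pool.Agent.R425.G.Lp

/-!
# Classes of points over a quadratic extension
-/

set_option autoImplicit false
set_option linter.all false

open WeierstrassCurve WeierstrassCurve.Affine Polynomial
open scoped Classical

namespace Pool.Agent.K4H9.SP

open Pool.Agent.TH115.GD
open Pool.Agent.R425.G

theorem hc_neg {F : Type*} [Field F] {W : Affine F} {a b c : F} (h : IsC W a b c) {P : W.Point}
    {X Y : F} {hX : W.Nonsingular X Y} (hP : P + P = Point.some X Y hX) (hne : X ≠ a) :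
    hc a b c (-P) = - hc a b c P := by
  have hPP : P + P ≠ 0 := by rw [hP]; exact Point.some_ne_zero _
  have hPP' : (-P) + (-P) ≠ 0 := by
    intro h0
    apply hPP
    have : -(P + P) = 0 := by rw [← h0]; abel
    exact neg_eq_zero.1 this
  have hsh : sh h.a1 h.a3 a P + sh h.a1 h.a3 a P ≠ 0 := fun h0 => hPP ((sh_two h.a1 h.a3 a P).1 h0)
  obtain ⟨X', Y', hQ, k1, k2, -⟩ := double h.isE hsh
  rw [← sh_add, hP] at k1
  have hX' : X - a = X' := (Point.some.inj k1).1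
  have e0 : r0 (b - a) (c - a) (sh h.a1 h.a3 a P) = rt a ((b - a) * (c - a)) P := by
    rcases P with _ | ⟨x, y, hP⟩
    · rfl
    · simp only [r0, rt, sh, sub_zero]
  have hr : rt a ((b - a) * (c - a)) P ≠ 0 := by
    intro h0
    rw [e0, h0, ← hX'] at k2
    apply hne
    rw [zero_pow two_ne_zero] at k2
    linear_combination -k2
  have hn : rt a ((b - a) * (c - a)) (-P) = - rt a ((b - a) * (c - a)) P := by
    rcases P with _ | ⟨x, y, hxy⟩
    · exact absurd (add_zero _) hPP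
    · rw [Point.neg_some]
      simp only [rt]
      have : W.negY x y = -y := by simp [Affine.negY, h.a1, h.a3]
      rw [this, mul_neg, div_neg]
  have hr' : rt a ((b - a) * (c - a)) (-P) ≠ 0 := by rw [hn]; exact neg_ne_zero.2 hr
  unfold hc
  rw [if_neg hPP, if_neg hPP', if_neg hr, if_neg hr', hn]

section

variable {V : WeierstrassCurve ℚ} {L Ω' : Type} [Field L] [Field Ω'] [Algebra L Ω'] [Algebra ℚ L]
  [Algebra ℚ Ω'] [IsScalarTower ℚ L Ω'] {a b c : Ω'}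

theorem prod3 (hC : IsC (V.baseChange Ω').toAffine a b c) (σ : Ω' ≃ₐ[L] Ω') (f : Rt V Ω' → Ω') :
    f (mv σ ⟨a, hC.root_a⟩) * f (mv σ ⟨b, hC.root_b⟩) * f (mv σ ⟨c, hC.root_c⟩) =
      f ⟨a, hC.root_a⟩ * f ⟨b, hC.root_b⟩ * f ⟨c, hC.root_c⟩ := by
  have key : ∀ (x y z : Rt V Ω'), x ≠ y → x ≠ z → y ≠ z →
      f x * f y * f z = f ⟨a, hC.root_a⟩ * f ⟨b, hC.root_b⟩ * f ⟨c, hC.root_c⟩ := by
    intro x y z hxy hxz hyz
    have hx : x = ⟨a, hC.root_a⟩ ∨ x = ⟨b, hC.root_b⟩ ∨ x = ⟨c, hC.root_c⟩ := by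
      rcases hC.root x.2 with h | h | h
      · exact Or.inl (Subtype.ext h)
      · exact Or.inr (Or.inl (Subtype.ext h))
      · exact Or.inr (Or.inr (Subtype.ext h))
    have hy : y = ⟨a, hC.root_a⟩ ∨ y = ⟨b, hC.root_b⟩ ∨ y = ⟨c, hC.root_c⟩ := by
      rcases hC.root y.2 with h | h | h
      · exact Or.inl (Subtype.ext h)
      · exact Or.inr (Or.inl (Subtype.ext h))
      · exact Or.inr (Or.inr (Subtype.ext h))
    have hz : z = ⟨a, hC.root_a⟩ ∨ z = ⟨b, hC.root_b⟩ ∨ z = ⟨c, hC.root_c⟩ := by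
      rcases hC.root z.2 with h | h | h
      · exact Or.inl (Subtype.ext h)
      · exact Or.inr (Or.inl (Subtype.ext h))
      · exact Or.inr (Or.inr (Subtype.ext h))
    rcases hx with rfl | rfl | rfl <;> rcases hy with rfl | rfl | rfl <;>
      rcases hz with rfl | rfl | rfl <;>
      first
        | exact absurd rfl hxy
        | exact absurd rfl hxz
        | exact absurd rfl hyz
        | ring
  have hmv : ∀ x y : Rt V Ω', x ≠ y → mv σ x ≠ mv σ y := by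
    intro x y hxy h
    apply hxy
    rw [← mv_inv' σ x, h, mv_inv']
  refine key _ _ _ (hmv _ _ ?_) (hmv _ _ ?_) (hmv _ _ ?_)
  · exact fun h => hC.ab (congrArg Subtype.val h)
  · exact fun h => hC.ac (congrArg Subtype.val h)
  · exact fun h => hC.bc (congrArg Subtype.val h)

variable [IsAlgClosed Ω'] [IsGalois L Ω']

theorem kum (hC : IsC (V.baseChange Ω').toAffine a b c) {X₀ Y₀ : Ω'}
    (h0 : (V.baseChange Ω').toAffine.Nonsingular X₀ Y₀) (hX : ∀ e : Rt V Ω', X₀ ≠ e.1) {s : Ω'}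
    (hs : ∀ τ : Ω' ≃ₐ[L] Ω', τ s = s ∨ τ s = -s)
    (hp : ∀ τ : Ω' ≃ₐ[L] Ω', τ s = s →
      act V (rs ℚ τ) (Point.some X₀ Y₀ h0 : Pt V Ω') = Point.some X₀ Y₀ h0)
    (hm : ∀ τ : Ω' ≃ₐ[L] Ω', τ s = -s →
      act V (rs ℚ τ) (Point.some X₀ Y₀ h0 : Pt V Ω') = -Point.some X₀ Y₀ h0)
    (hD : Dl V L Ω' (fun e => X₀ - e.1)) :
    ∃ R : Pt V Ω', (∀ τ : Ω' ≃ₐ[L] Ω', τ s = s → act V (rs ℚ τ) R = R) ∧
      ∀ τ : Ω' ≃ₐ[L] Ω', τ s = -s → R - act V (rs ℚ τ) R = Point.some X₀ Y₀ h0 := by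
  obtain ⟨η, d, P, hζ⟩ := hD
  set P₀ : Pt V Ω' := Point.some X₀ Y₀ h0 with hP₀def
  have hP₀ : P₀ ≠ 0 := Point.some_ne_zero _
  obtain ⟨Q₀, hQ₀⟩ := halveC hC P₀
  obtain ⟨Q, hQ, hQ0⟩ : ∃ Q : Pt V Ω', Q + Q = act V (incl ℚ L Ω') P ∧ (Q + Q = 0 → Q = 0) := by
    by_cases hP : P = 0
    · exact ⟨0, by rw [hP, map_zero, add_zero], fun _ => rfl⟩
    · obtain ⟨Q, hQ⟩ := halveC hC (act V (incl ℚ L Ω') P)
      exact ⟨Q, hQ, fun h => absurd (act_inj V (incl ℚ L Ω') (by rw [← hQ, h, map_zero])) hP⟩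
  obtain ⟨t, ht⟩ := IsAlgClosed.exists_pow_nat_eq (algebraMap L Ω' (d : L)) (n := 2) (by norm_num)
  have ht0 : t ≠ 0 := by
    rintro rfl
    rw [zero_pow two_ne_zero] at ht
    exact (_root_.map_ne_zero (algebraMap L Ω')).2 d.ne_zero ht.symm
  choose o1 o2 ho using fun e : Rt V Ω' => root_set hC e
  have hu0 : ∀ e : Rt V Ω', hc e.1 (o1 e) (o2 e) Q₀ ≠ 0 := fun e => hc_ne (ho e) _
  have hv0 : ∀ e : Rt V Ω', hc e.1 (o1 e) (o2 e) Q ≠ 0 := fun e => hc_ne (ho e) _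
  have hη0 : ∀ e : Rt V Ω', (η.1 e : Ω') ≠ 0 := fun e => (η.1 e).ne_zero
  have hu : ∀ e : Rt V Ω', hc e.1 (o1 e) (o2 e) Q₀ ^ 2 = X₀ - e.1 := by
    intro e
    rw [hc_sq (ho e), hQ₀]
    show dc e.1 (o1 e) (o2 e) (Point.some X₀ Y₀ h0) = _
    simp only [dc]
    rw [if_neg (hX e)]
  have hv : ∀ e : Rt V Ω', hc e.1 (o1 e) (o2 e) Q ^ 2 = kpf P e := by
    intro e
    rw [hc_sq (ho e), hQ, kpf_eq P e (ho e)]
  set g : Rt V Ω' → Ω' := fun e => hc e.1 (o1 e) (o2 e) Q₀ /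
    ((η.1 e : Ω') * t * hc e.1 (o1 e) (o2 e) Q) with hg
  have hge : ∀ e, hc e.1 (o1 e) (o2 e) Q₀ = g e * ((η.1 e : Ω') * t * hc e.1 (o1 e) (o2 e) Q) := by
    intro e
    simp only [hg]
    rw [div_mul_cancel₀]
    exact mul_ne_zero (mul_ne_zero (hη0 e) ht0) (hv0 e)
  have hg2 : ∀ e, g e * g e = 1 := by
    intro e
    have h1 := hu e
    have hζ' : X₀ - e.1 = (η.1 e : Ω') ^ 2 * algebraMap L Ω' d * kpf P e := hζ e
    rw [hge e, hζ', ← ht, ← hv e] at h1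
    have h2 : ((η.1 e : Ω') * t * hc e.1 (o1 e) (o2 e) Q) ^ 2 ≠ 0 :=
      pow_ne_zero 2 (mul_ne_zero (mul_ne_zero (hη0 e) ht0) (hv0 e))
    apply mul_right_cancel₀ h2
    linear_combination h1
  have hgs : ∀ e, g e = 1 ∨ g e = -1 := fun e => mul_self_eq_one_iff.1 (hg2 e)
  have hgτ : ∀ (τ : Ω' ≃ₐ[L] Ω') (e : Rt V Ω'), τ (g e) = g e := by
    intro τ e
    rcases hgs e with h | h <;> rw [h] <;> simp
  -- the action on the square roots
  have hact : ∀ (τ : Ω' ≃ₐ[L] Ω') (e : Rt V Ω') (Z : Pt V Ω'),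
      τ (hc e.1 (o1 e) (o2 e) Z) =
        hc (mv τ e).1 (o1 (mv τ e)) (o2 (mv τ e)) (act V (rs ℚ τ) Z) := by
    intro τ e Z
    have h1 := hc_act V (rs ℚ τ) e.1 (o1 e) (o2 e) Z
    have hC1 : IsC (V.baseChange Ω').toAffine ((rs ℚ τ) e.1) ((rs ℚ τ) (o1 e)) ((rs ℚ τ) (o2 e)) :=
      (ho e).map (rs ℚ τ)
    have h2 := hc_indep hC1 (ho (mv τ e)) (act V (rs ℚ τ) Z)
    exact h1.symm.trans h2
  have keyU : ∀ τ : Ω' ≃ₐ[L] Ω', (act V (rs ℚ τ) Q - Q) + (act V (rs ℚ τ) Q - Q) = 0 := by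
    intro τ
    have h1 : act V (rs ℚ τ) (Q + Q) = Q + Q := by rw [hQ, rs_act_incl]
    rw [map_add] at h1
    have h3 : (act V (rs ℚ τ) Q - Q) + (act V (rs ℚ τ) Q - Q) =
        (act V (rs ℚ τ) Q + act V (rs ℚ τ) Q) - (Q + Q) := by abel
    rw [h3, h1, sub_self]
  have keyV : ∀ (τ : Ω' ≃ₐ[L] Ω') (e : Rt V Ω'), τ (hc e.1 (o1 e) (o2 e) Q) =
      sC (mv τ e).1 (act V (rs ℚ τ) Q - Q) * hc (mv τ e).1 (o1 (mv τ e)) (o2 (mv τ e)) Q := by
    intro τ e
    rw [hact]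
    have h3 : act V (rs ℚ τ) Q = Q + (act V (rs ℚ τ) Q - Q) := by abel
    rw [h3]
    have h4 : Q + (act V (rs ℚ τ) Q - Q) - Q = act V (rs ℚ τ) Q - Q := by abel
    rw [h4]
    apply hc_translate (ho (mv τ e)) (keyU τ)
    intro h
    rw [hQ0 h, map_zero, sub_zero]
    rfl
  -- the main step
  have main : ∀ (τ : Ω' ≃ₐ[L] Ω') (T : Pt V Ω') (ε : Ω'), T + T = 0 → ε * ε = 1 →
      (∀ e : Rt V Ω', τ (hc e.1 (o1 e) (o2 e) Q₀) =
        ε * (sC (mv τ e).1 T * hc (mv τ e).1 (o1 (mv τ e)) (o2 (mv τ e)) Q₀)) →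
      ∀ e : Rt V Ω', sC (mv τ e).1 (T + (act V (rs ℚ τ) Q - Q)) = g (mv τ e) * g e := by
    intro τ T ε hT hε h e
    set U := act V (rs ℚ τ) Q - Q with hU
    have hUU : U + U = 0 := keyU τ
    set κ : Ω' := ε * (τ t / t) with hκ
    have hrel : ∀ e : Rt V Ω', sC (mv τ e).1 T * sC (mv τ e).1 U = κ * (g (mv τ e) * g e) := by
      intro e
      have h1 := h e
      rw [hge e, map_mul, hgτ, map_mul, map_mul, keyV τ e, equi η τ e, hge (mv τ e)] at h1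
      have n1 := hη0 (mv τ e)
      have n2 := hv0 (mv τ e)
      have h2 : g e * τ t * sC (mv τ e).1 U = ε * (sC (mv τ e).1 T * (g (mv τ e) * t)) := by
        apply mul_right_cancel₀ (mul_ne_zero n1 n2)
        linear_combination h1
      have q1 := hg2 e
      have q2 := hg2 (mv τ e)
      have q3 := sC_mul_self (a := (mv τ e).1) U
      have q4 := sC_mul_self (a := (mv τ e).1) T
      have hκt : κ * t = ε * τ t := by
        rw [hκ]
        field_simp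
      apply mul_right_cancel₀ ht0
      linear_combination (-(ε * sC (mv τ e).1 U * g (mv τ e))) * h2 -
        (sC (mv τ e).1 T * sC (mv τ e).1 U * t * (g (mv τ e) * g (mv τ e))) * hε -
        (sC (mv τ e).1 T * sC (mv τ e).1 U * t) * q2 +
        (ε * τ t * g (mv τ e) * g e) * q3 - (g (mv τ e) * g e) * hκt
    have hκ2 : κ * κ = 1 := by
      have h1 := hrel ⟨a, hC.root_a⟩
      have q1 := hg2 ⟨a, hC.root_a⟩
      have q2 := hg2 (mv τ ⟨a, hC.root_a⟩)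
      have q3 := sC_mul_self (a := (mv τ ⟨a, hC.root_a⟩).1) U
      have q4 := sC_mul_self (a := (mv τ ⟨a, hC.root_a⟩).1) T
      generalize sC (mv τ ⟨a, hC.root_a⟩).1 U = B at *
      generalize sC (mv τ ⟨a, hC.root_a⟩).1 T = A at *
      generalize g (mv τ ⟨a, hC.root_a⟩) = y at *
      generalize g ⟨a, hC.root_a⟩ = x at *
      have e1 : (A * B) * (A * B) = 1 := by linear_combination (B * B) * q4 + q3
      have e2 : (y * x) * (y * x) = 1 := by linear_combination (x * x) * q2 + q1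
      rw [h1] at e1
      linear_combination e1 - κ * κ * e2
    have hκ3 : κ * κ * κ = 1 := by
      have p1 := prod3 hC τ (fun e => sC e.1 T)
      have p2 := prod3 hC τ (fun e => sC e.1 U)
      have p3 := prod3 hC τ g
      have r1 := hrel ⟨a, hC.root_a⟩
      have r2 := hrel ⟨b, hC.root_b⟩
      have r3 := hrel ⟨c, hC.root_c⟩
      have s1 := sC_prod hC hT
      have s2 := sC_prod hC hUU
      have g1 := hg2 ⟨a, hC.root_a⟩
      have g2 := hg2 ⟨b, hC.root_b⟩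
      have g3 := hg2 ⟨c, hC.root_c⟩
      simp only at p1 p2
      rw [s1] at p1
      rw [s2] at p2
      generalize sC (mv τ ⟨a, hC.root_a⟩).1 U = B1 at *
      generalize sC (mv τ ⟨a, hC.root_a⟩).1 T = A1 at *
      generalize g (mv τ ⟨a, hC.root_a⟩) = y1 at *
      generalize g ⟨a, hC.root_a⟩ = x1 at *
      generalize sC (mv τ ⟨b, hC.root_b⟩).1 U = B2 at *
      generalize sC (mv τ ⟨b, hC.root_b⟩).1 T = A2 at *
      generalize g (mv τ ⟨b, hC.root_b⟩) = y2 at *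
      generalize g ⟨b, hC.root_b⟩ = x2 at *
      generalize sC (mv τ ⟨c, hC.root_c⟩).1 U = B3 at *
      generalize sC (mv τ ⟨c, hC.root_c⟩).1 T = A3 at *
      generalize g (mv τ ⟨c, hC.root_c⟩) = y3 at *
      generalize g ⟨c, hC.root_c⟩ = x3 at *
      have e1 : (A1 * B1) * (A2 * B2) * (A3 * B3) = 1 := by
        linear_combination (B1 * B2 * B3) * p1 + p2
      have e2 : (y1 * x1) * (y2 * x2) * (y3 * x3) = 1 := by
        have e3 : (x1 * x2 * x3) * (x1 * x2 * x3) = 1 := by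
          linear_combination (x2 * x2) * (x3 * x3) * g1 + (x3 * x3) * g2 + g3
        linear_combination (x1 * x2 * x3) * p3 + e3
      rw [r1, r2, r3] at e1
      linear_combination e1 - κ * κ * κ * e2
    have hκ1 : κ = 1 := by linear_combination hκ3 - κ * hκ2
    rw [sC_add (ho (mv τ e)) hT hUU, hrel e, hκ1, one_mul]
  -- the correction
  set G : Ω' := g ⟨a, hC.root_a⟩ * g ⟨b, hC.root_b⟩ * g ⟨c, hC.root_c⟩ with hG
  have hGs : G = 1 ∨ G = -1 := by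
    apply mul_self_eq_one_iff.1
    have g1 := hg2 ⟨a, hC.root_a⟩
    have g2 := hg2 ⟨b, hC.root_b⟩
    have g3 := hg2 ⟨c, hC.root_c⟩
    rw [hG]
    generalize g ⟨a, hC.root_a⟩ = x1 at *
    generalize g ⟨b, hC.root_b⟩ = x2 at *
    generalize g ⟨c, hC.root_c⟩ = x3 at *
    linear_combination (x2 * x2) * (x3 * x3) * g1 + (x3 * x3) * g2 + g3
  have hG2 : G * G = 1 := mul_self_eq_one_iff.2 hGs
  have hsgn : ∀ e, G * g e = 1 ∨ G * g e = -1 := by
    intro e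
    rcases hGs with h1 | h1 <;> rcases hgs e with h2 | h2 <;> rw [h1, h2] <;> simp
  obtain ⟨S, hSS, sa, sb, sc⟩ := exists_tor hC (hsgn ⟨a, hC.root_a⟩) (hsgn ⟨b, hC.root_b⟩)
    (hsgn ⟨c, hC.root_c⟩) (by
      have : G * g ⟨a, hC.root_a⟩ * (G * g ⟨b, hC.root_b⟩) * (G * g ⟨c, hC.root_c⟩) =
        G * G * (G * (g ⟨a, hC.root_a⟩ * g ⟨b, hC.root_b⟩ * g ⟨c, hC.root_c⟩)) := by ring
      rw [this, ← hG, hG2, one_mul])
  have hS : ∀ e : Rt V Ω', sC e.1 S = G * g e := by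
    rintro ⟨e, he⟩
    rcases hC.root he with rfl | rfl | rfl
    · exact sa
    · exact sb
    · exact sc
  have fin : ∀ (τ : Ω' ≃ₐ[L] Ω') (T : Pt V Ω') (ε : Ω'), T + T = 0 → ε * ε = 1 →
      (∀ e : Rt V Ω', τ (hc e.1 (o1 e) (o2 e) Q₀) =
        ε * (sC (mv τ e).1 T * hc (mv τ e).1 (o1 (mv τ e)) (o2 (mv τ e)) Q₀)) →
      T + (act V (rs ℚ τ) Q - Q) = act V (rs ℚ τ) S + S := by
    intro τ T ε hT hε h
    have hUU := keyU τ
    have hTU : (T + (act V (rs ℚ τ) Q - Q)) + (T + (act V (rs ℚ τ) Q - Q)) = 0 := by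
      have : (T + (act V (rs ℚ τ) Q - Q)) + (T + (act V (rs ℚ τ) Q - Q)) =
        (T + T) + ((act V (rs ℚ τ) Q - Q) + (act V (rs ℚ τ) Q - Q)) := by abel
      rw [this, hT, hUU, add_zero]
    have haS : act V (rs ℚ τ) S + act V (rs ℚ τ) S = 0 := by
      rw [← map_add, hSS, map_zero]
    have hSS' : (act V (rs ℚ τ) S + S) + (act V (rs ℚ τ) S + S) = 0 := by
      have : (act V (rs ℚ τ) S + S) + (act V (rs ℚ τ) S + S) =
        (act V (rs ℚ τ) S + act V (rs ℚ τ) S) + (S + S) := by abel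
      rw [this, haS, hSS, add_zero]
    have hall : ∀ e : Rt V Ω', sC e.1 (T + (act V (rs ℚ τ) Q - Q)) =
        sC e.1 (act V (rs ℚ τ) S + S) := by
      intro e
      have h1 := main τ T ε hT hε h (mv τ⁻¹ e)
      rw [mv_inv] at h1
      rw [h1, sC_add (ho e) haS hSS, hS e]
      have h2 := sC_act' V (rs ℚ τ) (mv τ⁻¹ e).1 S
      have h3 : (rs ℚ τ) (mv τ⁻¹ e).1 = e.1 := congrArg Subtype.val (mv_inv τ e)
      rw [h3, hS] at h2
      rw [h2]
      linear_combination (-(g e * g (mv τ⁻¹ e))) * hG2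
    exact sC_ext hC hTU hSS' (hall ⟨a, hC.root_a⟩) (hall ⟨b, hC.root_b⟩)
  have hSn : -S = S := neg_eq_of_add_eq_zero_left hSS
  refine ⟨Q₀ - Q - S, ?_, ?_⟩
  · intro τ hτ
    have hT : (act V (rs ℚ τ) Q₀ - Q₀) + (act V (rs ℚ τ) Q₀ - Q₀) = 0 := by
      have h1 := hp τ hτ
      rw [← hQ₀, map_add] at h1
      have : (act V (rs ℚ τ) Q₀ - Q₀) + (act V (rs ℚ τ) Q₀ - Q₀) =
        (act V (rs ℚ τ) Q₀ + act V (rs ℚ τ) Q₀) - (Q₀ + Q₀) := by abel
      rw [this, h1, sub_self]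
    have h1 := fin τ (act V (rs ℚ τ) Q₀ - Q₀) 1 hT (one_mul 1) (by
      intro e
      rw [hact, one_mul]
      have h3 : act V (rs ℚ τ) Q₀ = Q₀ + (act V (rs ℚ τ) Q₀ - Q₀) := by abel
      rw [h3]
      have h4 : Q₀ + (act V (rs ℚ τ) Q₀ - Q₀) - Q₀ = act V (rs ℚ τ) Q₀ - Q₀ := by abel
      rw [h4]
      apply hc_translate (ho (mv τ e)) hT
      intro h
      exact absurd (hQ₀.symm.trans h) hP₀)
    have hU := keyU τ
    rw [map_sub, map_sub]
    generalize act V (rs ℚ τ) Q₀ = A at *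
    generalize act V (rs ℚ τ) Q = B at *
    generalize act V (rs ℚ τ) S = C at *
    have hUn : B - Q = -(B - Q) := (neg_eq_of_add_eq_zero_left hU).symm
    have e1 : A - B - C - (Q₀ - Q - S) = (A - Q₀) + -(B - Q) - (C + -S) := by abel
    rw [← sub_eq_zero, e1, ← hUn, hSn, h1, sub_self]
  · intro τ hτ
    have hPm := hm τ hτ
    have hT : (act V (rs ℚ τ) Q₀ + Q₀) + (act V (rs ℚ τ) Q₀ + Q₀) = 0 := by
      have h1 := hPm
      rw [← hQ₀, map_add] at h1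
      have : (act V (rs ℚ τ) Q₀ + Q₀) + (act V (rs ℚ τ) Q₀ + Q₀) =
        (act V (rs ℚ τ) Q₀ + act V (rs ℚ τ) Q₀) + (Q₀ + Q₀) := by abel
      rw [this, h1, neg_add_cancel]
    have h1 := fin τ (act V (rs ℚ τ) Q₀ + Q₀) (-1) hT (by ring) (by
      intro e
      rw [hact]
      have h3 : act V (rs ℚ τ) Q₀ = -Q₀ + (act V (rs ℚ τ) Q₀ + Q₀) := by abel
      rw [h3]
      have h4 : -Q₀ + (act V (rs ℚ τ) Q₀ + Q₀) + Q₀ = act V (rs ℚ τ) Q₀ + Q₀ := by abel
      rw [h4]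
      have h5 : (-Q₀) + (-Q₀) ≠ 0 := by
        intro h0
        apply hP₀
        have h6 : (-Q₀) + (-Q₀) = -(Q₀ + Q₀) := by abel
        rw [h6, hQ₀, neg_eq_zero] at h0
        exact h0
      rw [hc_translate (ho (mv τ e)) hT (fun h => absurd h h5),
        hc_neg (ho (mv τ e)) hQ₀ (hX (mv τ e))]
      ring)
    have hU := keyU τ
    rw [map_sub, map_sub]
    generalize act V (rs ℚ τ) Q₀ = A at *
    generalize act V (rs ℚ τ) Q = B at *
    generalize act V (rs ℚ τ) S = C at *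
    have hTn : A + Q₀ = -(A + Q₀) := (neg_eq_of_add_eq_zero_left hT).symm
    have e1 : Q₀ - Q - S - (A - B - C) = (Q₀ + Q₀) + (-(A + Q₀) + (B - Q)) + (C + -S) := by abel
    have hCS : (C + S) + (C + S) = 0 := by
      rw [← h1]
      have : A + Q₀ + (B - Q) + (A + Q₀ + (B - Q)) = (A + Q₀ + (A + Q₀)) + (B - Q + (B - Q)) := by
        abel
      rw [this, hT, hU, add_zero]
    rw [e1, ← hTn, hSn, h1, hQ₀, add_assoc, hCS, add_zero]

end

end Pool.Agent.K4H9.SP
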