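import Mathlib

/-!
# The value of the x-coordinate of `R - σ R`
-/

set_option autoImplicit false
set_option linter.all false

open scoped NNReal

namespace Pool.Agent.K4H9.SP

variable {Ω : Type} [Field Ω] (w : Valuation Ω ℝ≥0)

theorem w_add {x y : Ω} {r : ℝ≥0} (hx : w x ≤ r) (hy : w y ≤ r) : w (x + y) ≤ r :=
  (Valuation.map_add _ _ _).trans (max_le hx hy)

theorem w_sub {x y : Ω} {r : ℝ≥0} (hx : w x ≤ r) (hy : w y ≤ r) : w (x - y) ≤ r :=
  (Valuation.map_sub _ _ _).trans (max_le hx hy)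

theorem w_add' {x y : Ω} {r : ℝ≥0} (hx : w x < r) (hy : w y < r) : w (x + y) < r :=
  (Valuation.map_add _ _ _).trans_lt (max_lt hx hy)

theorem w_sub' {x y : Ω} {r : ℝ≥0} (hx : w x < r) (hy : w y < r) : w (x - y) < r :=
  (Valuation.map_sub _ _ _).trans_lt (max_lt hx hy)

theorem w_mul1 {x y : Ω} {r : ℝ≥0} (hx : w x ≤ 1) (hy : w y ≤ r) : w (x * y) ≤ r := by
  rw [map_mul]
  calc w x * w y ≤ 1 * r := mul_le_mul' hx hy
    _ = r := one_mul r

theorem w_dom {x y : Ω} (h : w y < w x) : w (x + y) = w x := Valuation.map_add_eq_of_lt_left w h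

variable {a1 a2 a3 a4 a6 x y x' y' l : Ω} {ϖ D : ℝ≥0}

/-- the second coordinate is integral -/
theorem y_int (h1 : w a1 ≤ 1) (h2 : w a2 ≤ 1) (h3 : w a3 ≤ 1) (h4 : w a4 ≤ 1) (h6 : w a6 ≤ 1)
    (e : y ^ 2 + a1 * x * y + a3 * y = x ^ 3 + a2 * x ^ 2 + a4 * x + a6) (hx : w x ≤ 1) : w y ≤ 1 := by
  by_contra hcon
  rw [not_le] at hcon
  have hx2 : w (x ^ 2) ≤ 1 := by rw [map_pow]; exact pow_le_one₀ zero_le hx
  have hx3 : w (x ^ 3) ≤ 1 := by rw [map_pow]; exact pow_le_one₀ zero_le hx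
  have hr : w (x ^ 3 + a2 * x ^ 2 + a4 * x + a6) ≤ 1 :=
    w_add w (w_add w (w_add w hx3 (w_mul1 w h2 hx2)) (w_mul1 w h4 hx)) h6
  have hyy : w y < w (y ^ 2) := by
    rw [map_pow, pow_two]
    exact lt_mul_of_one_lt_left (lt_trans zero_lt_one hcon) hcon
  have hl : w (y ^ 2 + a1 * x * y + a3 * y) = w (y ^ 2) := by
    rw [add_assoc]
    apply w_dom
    refine lt_of_le_of_lt (w_add w ?_ ?_) hyy
    · rw [mul_assoc]
      exact w_mul1 w h1 (w_mul1 w hx le_rfl)
    · exact w_mul1 w h3 le_rfl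
  rw [← e, hl] at hr
  exact absurd (hcon.trans hyy) (not_lt.2 hr)

theorem y_val (h1 : w a1 ≤ 1) (h2 : w a2 ≤ 1) (h3 : w a3 ≤ 1) (h4 : w a4 ≤ 1) (h6 : w a6 ≤ 1)
    (e : y ^ 2 + a1 * x * y + a3 * y = x ^ 3 + a2 * x ^ 2 + a4 * x + a6) (hx : 1 < w x) :
    w y ^ 2 = w x ^ 3 := by
  have hx0 : 0 < w x := lt_trans zero_lt_one hx
  have h12 : w x < w x ^ 2 := by
    rw [pow_two]; exact lt_mul_of_one_lt_left hx0 hx
  have h23 : w x ^ 2 < w x ^ 3 := by
    rw [pow_succ (w x) 2]; exact lt_mul_of_one_lt_right (pow_pos hx0 2) hx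
  have hr : w (x ^ 3 + a2 * x ^ 2 + a4 * x + a6) = w x ^ 3 := by
    have e1 : x ^ 3 + a2 * x ^ 2 + a4 * x + a6 = x ^ 3 + (a2 * x ^ 2 + a4 * x + a6) := by ring
    rw [e1, w_dom, map_pow]
    rw [map_pow]
    refine lt_of_le_of_lt (b := w x ^ 2) (w_add w (w_add w ?_ ?_) ?_) h23
    · exact w_mul1 w h2 (by rw [map_pow])
    · exact (w_mul1 w h4 le_rfl).trans h12.le
    · exact h6.trans (hx.trans h12).le
  have hy : w x < w y := by
    by_contra hcon
    rw [not_lt] at hcon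
    have hl : w (y ^ 2 + a1 * x * y + a3 * y) ≤ w x ^ 2 := by
      refine w_add w (w_add w ?_ ?_) ?_
      · rw [map_pow]; exact pow_le_pow_left₀ zero_le hcon 2
      · rw [mul_assoc]
        refine w_mul1 w h1 ?_
        rw [map_mul, pow_two]
        exact mul_le_mul' le_rfl hcon
      · exact (w_mul1 w h3 hcon).trans h12.le
    rw [e, hr] at hl
    exact absurd h23 (not_lt.2 hl)
  rw [← hr, ← e, add_assoc, w_dom, map_pow]
  have hy1 : 1 < w y := hx.trans hy
  rw [map_pow, pow_two]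
  refine w_add' w ?_ ?_
  · rw [map_mul, map_mul]
    calc w a1 * w x * w y ≤ 1 * w x * w y := by gcongr
      _ = w x * w y := by rw [one_mul]
      _ < w y * w y := mul_lt_mul_of_pos_right hy (lt_trans zero_lt_one hy1)
  · calc w (a3 * y) ≤ w y := w_mul1 w h3 le_rfl
      _ < w y * w y := lt_mul_of_one_lt_left (lt_trans zero_lt_one hy1) hy1

theorem dom_fin (h1 : w a1 ≤ 1) (h2 : w a2 ≤ 1) (hx' : w x' = w x) (hD1 : D < 1)
    (hl : 1 ≤ w l * D) (hxl : w x < w l ^ 2) :
    1 ≤ w (l ^ 2 + a1 * l - a2 - x - x') * D ^ 2 := by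
  have hl1 : 1 < w l := by
    by_contra hcon
    rw [not_lt] at hcon
    have : w l * D < 1 := by
      calc w l * D ≤ 1 * D := mul_le_mul' hcon le_rfl
        _ = D := one_mul D
        _ < 1 := hD1
    exact absurd hl (not_le.2 this)
  have hll : w l < w l ^ 2 := by
    rw [pow_two]; exact lt_mul_of_one_lt_left (lt_trans zero_lt_one hl1) hl1
  have e1 : l ^ 2 + a1 * l - a2 - x - x' = l ^ 2 + (a1 * l - a2 - x - x') := by ring
  have e2 : w (l ^ 2 + a1 * l - a2 - x - x') = w l ^ 2 := by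
    rw [e1, w_dom, map_pow]
    rw [map_pow]
    refine w_sub' w (w_sub' w (w_sub' w ?_ ?_) hxl) (by rw [hx']; exact hxl)
    · exact lt_of_le_of_lt (w_mul1 w h1 le_rfl) hll
    · exact lt_of_le_of_lt h2 (hl1.trans hll)
  rw [e2, ← mul_pow]
  exact one_le_pow₀ hl

theorem valB (h1 : w a1 ≤ 1) (h2 : w a2 ≤ 1) (h3 : w a3 ≤ 1) (h4 : w a4 ≤ 1) (h6 : w a6 ≤ 1)
    (w2 : w 2 ≤ 1) (w3 : w 3 = 1)
    (e : y ^ 2 + a1 * x * y + a3 * y = x ^ 3 + a2 * x ^ 2 + a4 * x + a6)
    (e' : y' ^ 2 + a1 * x' * y' + a3 * y' = x' ^ 3 + a2 * x' ^ 2 + a4 * x' + a6)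
    (hx : w x' = w x) (hy : w y' = w y) (ne : ¬ (x = x' ∧ y = y'))
    (hϖ0 : 0 < ϖ) (hϖ1 : ϖ < 1) (hD : D ≤ ϖ ^ 2)
    (vx1 : w x ≤ 1 → w (x - x') ≤ D) (vy1 : w y ≤ 1 → w (y - y') ≤ D)
    (vx2 : w (x - x') * ϖ ≤ w x * D) (vy2 : w (y - y') * ϖ ≤ w y * D)
    (v3 : 1 < w (y / x) → 1 ≤ w (y / x) * ϖ)
    (hns : w x ≤ 1 → w y ≤ 1 → w (2 * y + a1 * x + a3) < 1 →
      w (3 * x ^ 2 + 2 * a2 * x + a4 - a1 * y) = 1)
    (hl1 : x ≠ x' → l * (x - x') = y + y' + a1 * x' + a3)
    (hl2 : x = x' → l * (2 * y + a1 * x + a3) = 3 * x ^ 2 + 2 * a2 * x + a4 - a1 * y) :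
    1 ≤ w (l ^ 2 + a1 * l - a2 - x - x') * D ^ 2 := by
  have hD1 : D < 1 := lt_of_le_of_lt hD (pow_lt_one₀ zero_le hϖ1 two_ne_zero)
  have hopp : x = x' → y - y' = 2 * y + a1 * x + a3 := by
    intro hxx
    have hyy : y - y' ≠ 0 := fun h => ne ⟨hxx, sub_eq_zero.1 h⟩
    subst hxx
    have : (y - y') * (y + y' + a1 * x + a3) = 0 := by linear_combination e - e'
    rcases mul_eq_zero.1 this with h | h
    · exact absurd h hyy
    · linear_combination -h
  have hden : l * (y - y' + a1 * (x - x')) = x ^ 2 + x * x' + x' ^ 2 + a2 * (x + x') + a4 +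
      a1 * (y' + a1 * x' + a3) := by
    by_cases hxx : x = x'
    · have h5 := hopp hxx
      have h6 := hl2 hxx
      subst hxx
      have h7 : y' = -y - a1 * x - a3 := by linear_combination -h5
      rw [h7]
      linear_combination h6
    · have h5 : x - x' ≠ 0 := sub_ne_zero.2 hxx
      apply mul_left_cancel₀ h5
      linear_combination (y - y' + a1 * (x - x')) * hl1 hxx + e - e'
  by_cases hx1 : w x ≤ 1
  · have hy1 := y_int w h1 h2 h3 h4 h6 e hx1
    have dx := vx1 hx1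
    have dy := vy1 hy1
    have hx'1 : w x' ≤ 1 := by rw [hx]; exact hx1
    have main : 1 ≤ w l * D := by
      by_cases hh : w (2 * y + a1 * x + a3) < 1
      · have hW := hns hx1 hy1 hh
        have hnum : w (x ^ 2 + x * x' + x' ^ 2 + a2 * (x + x') + a4 + a1 * (y' + a1 * x' + a3)) = 1 := by
          have e1 : x ^ 2 + x * x' + x' ^ 2 + a2 * (x + x') + a4 + a1 * (y' + a1 * x' + a3) =
              (3 * x ^ 2 + 2 * a2 * x + a4 - a1 * y) + (a1 * (2 * y + a1 * x + a3) -
                a1 * (y - y') - (a1 * a1) * (x - x') - (x' + 2 * x) * (x - x') - a2 * (x - x')) := by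
            ring
          have dx1 : w (x - x') < 1 := lt_of_le_of_lt dx hD1
          have dy1 : w (y - y') < 1 := lt_of_le_of_lt dy hD1
          have small : ∀ {r s : Ω}, w r ≤ 1 → w s < 1 → w (r * s) < 1 := fun hr hs =>
            lt_of_le_of_lt (w_mul1 w hr le_rfl) hs
          rw [e1, w_dom, hW]
          rw [hW]
          refine w_sub' w (w_sub' w (w_sub' w (w_sub' w (small h1 hh) (small h1 dy1)) (small ?_ dx1))
            (small ?_ dx1)) (small h2 dx1)
          · exact w_mul1 w h1 h1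
          · exact w_add w hx'1 (w_mul1 w w2 hx1)
        have hdn : w (y - y' + a1 * (x - x')) ≤ D := w_add w dy (w_mul1 w h1 dx)
        have h5 := congrArg w hden
        rw [hnum, map_mul] at h5
        rw [← h5]
        exact mul_le_mul' le_rfl hdn
      · have hh1 : w (2 * y + a1 * x + a3) = 1 := by
          apply le_antisymm _ (not_lt.1 hh)
          exact w_add w (w_add w (w_mul1 w w2 hy1) (w_mul1 w h1 hx1)) h3
        have hxx : x ≠ x' := by
          intro hxx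
          rw [← hopp hxx] at hh1
          rw [hh1] at dy
          exact absurd hD1 (not_lt.2 dy)
        have h5 := hl1 hxx
        have e1 : y + y' + a1 * x' + a3 = (2 * y + a1 * x + a3) + (-(y - y') - a1 * (x - x')) := by ring
        have h6 : w (y + y' + a1 * x' + a3) = 1 := by
          rw [e1, w_dom, hh1]
          rw [hh1]
          refine lt_of_le_of_lt (w_sub w ?_ (w_mul1 w h1 dx)) hD1
          rw [Valuation.map_neg]
          exact dy
        have h7 := congrArg w h5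
        rw [h6, map_mul] at h7
        rw [← h7]
        exact mul_le_mul' le_rfl dx
    refine dom_fin w h1 h2 hx hD1 main ?_
    have hl1' : 1 < w l := by
      by_contra hcon
      rw [not_lt] at hcon
      have : w l * D < 1 := by
        calc w l * D ≤ 1 * D := mul_le_mul' hcon le_rfl
          _ = D := one_mul D
          _ < 1 := hD1
      exact absurd main (not_le.2 this)
    calc w x ≤ 1 := hx1
      _ < w l ^ 2 := one_lt_pow₀ hl1' two_ne_zero
  · rw [not_le] at hx1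
    have hx0 : w x ≠ 0 := (lt_trans zero_lt_one hx1).ne'
    have hyv := y_val w h1 h2 h3 h4 h6 e hx1
    set C := w (y / x) with hC
    have hC' : C = w y / w x := by rw [hC, map_div₀]
    have hyC : w y = C * w x := by rw [hC', div_mul_cancel₀ _ hx0]
    have hxC : w x = C ^ 2 := by
      rw [hyC, mul_pow] at hyv
      have : w x ^ 2 * C ^ 2 = w x ^ 2 * w x := by rw [← pow_succ, ← hyv, mul_comm]
      exact (mul_left_cancel₀ (pow_ne_zero 2 hx0) this).symm
    have hyC3 : w y = C ^ 3 := by rw [hyC, hxC]; ring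
    have hC1 : 1 < C := by
      by_contra hcon
      rw [not_lt] at hcon
      have := pow_le_one₀ (zero_le) hcon (n := 2)
      rw [← hxC] at this
      exact absurd hx1 (not_lt.2 this)
    have hC0 : 0 < C := lt_trans zero_lt_one hC1
    have hCϖ := v3 hC1
    have hxx' : w (x - x') ≤ C ^ 2 * ϖ := by
      have h5 : w (x - x') * ϖ ≤ (C ^ 2 * ϖ) * ϖ := by
        calc w (x - x') * ϖ ≤ w x * D := vx2
          _ ≤ C ^ 2 * ϖ ^ 2 := by rw [hxC]; exact mul_le_mul' le_rfl hD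
          _ = (C ^ 2 * ϖ) * ϖ := by ring
      exact le_of_mul_le_mul_right h5 hϖ0
    have hlt : w (x - x') < C ^ 2 := by
      refine lt_of_le_of_lt hxx' ?_
      exact mul_lt_of_lt_one_right (pow_pos hC0 2) hϖ1
    have hC34 : C ^ 3 < C ^ 4 := by
      rw [pow_succ C 3]; exact lt_mul_of_one_lt_right (pow_pos hC0 3) hC1
    have hC24 : C ^ 2 < C ^ 4 := pow_lt_pow_right₀ hC1 (by norm_num)
    have hC14 : 1 < C ^ 4 := one_lt_pow₀ hC1 (by norm_num)
    have hnum : w (x ^ 2 + x * x' + x' ^ 2 + a2 * (x + x') + a4 + a1 * (y' + a1 * x' + a3)) = C ^ 4 := by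
      have e1 : x ^ 2 + x * x' + x' ^ 2 + a2 * (x + x') + a4 + a1 * (y' + a1 * x' + a3) =
          3 * x ^ 2 + ((x - x') * (x - x') - 3 * (x * (x - x')) + a2 * (x + x') + a4 +
            a1 * (y' + a1 * x' + a3)) := by ring
      have hm : w (3 * x ^ 2) = C ^ 4 := by rw [map_mul, w3, one_mul, map_pow, hxC]; ring
      rw [e1, w_dom, hm]
      rw [hm]
      refine w_add' w (w_add' w (w_add' w (w_sub' w ?_ ?_) ?_) ?_) ?_
      · rw [map_mul]
        calc w (x - x') * w (x - x') < C ^ 2 * C ^ 2 := mul_lt_mul'' hlt hlt zero_le zero_le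
          _ = C ^ 4 := by ring
      · rw [map_mul, w3, one_mul, map_mul, hxC]
        calc C ^ 2 * w (x - x') < C ^ 2 * C ^ 2 := mul_lt_mul_of_pos_left hlt (pow_pos hC0 2)
          _ = C ^ 4 := by ring
      · refine lt_of_le_of_lt (w_mul1 w h2 (r := C ^ 2) (w_add w hxC.le ?_)) hC24
        rw [hx, hxC]
      · exact lt_of_le_of_lt h4 hC14
      · refine lt_of_le_of_lt (w_mul1 w h1 (r := C ^ 3) ?_) hC34
        have h23 : C ^ 2 ≤ C ^ 3 := pow_le_pow_right₀ hC1.le (by norm_num)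
        refine w_add w (w_add w ?_ ?_) ?_
        · rw [hy, hyC3]
        · refine (w_mul1 w h1 (r := C ^ 2) ?_).trans h23
          rw [hx, hxC]
        · exact h3.trans (one_le_pow₀ hC1.le)
    have hdn : w (y - y' + a1 * (x - x')) * ϖ ≤ C ^ 3 * D := by
      have h5 : w (y - y') * ϖ ≤ C ^ 3 * D := by rw [← hyC3]; exact vy2
      have h6 : w (a1 * (x - x')) * ϖ ≤ C ^ 3 * D := by
        calc w (a1 * (x - x')) * ϖ ≤ w (x - x') * ϖ := mul_le_mul' (w_mul1 w h1 le_rfl) le_rfl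
          _ ≤ w x * D := vx2
          _ = C ^ 2 * D := by rw [hxC]
          _ ≤ C ^ 3 * D := mul_le_mul' (pow_le_pow_right₀ hC1.le (by norm_num)) le_rfl
      calc w (y - y' + a1 * (x - x')) * ϖ ≤ max (w (y - y')) (w (a1 * (x - x'))) * ϖ :=
            mul_le_mul' (Valuation.map_add _ _ _) le_rfl
        _ ≤ C ^ 3 * D := by
            rcases max_cases (w (y - y')) (w (a1 * (x - x'))) with h | h <;> rw [h.1]
            · exact h5
            · exact h6
    have h5 := congrArg w hden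
    rw [hnum, map_mul] at h5
    have hCl : C * ϖ ≤ w l * D := by
      have h7 : (C ^ 3) * (C * ϖ) ≤ C ^ 3 * (w l * D) := by
        calc (C ^ 3) * (C * ϖ) = C ^ 4 * ϖ := by ring
          _ = w l * (w (y - y' + a1 * (x - x')) * ϖ) := by rw [← h5]; ring
          _ ≤ w l * (C ^ 3 * D) := mul_le_mul' le_rfl hdn
          _ = C ^ 3 * (w l * D) := by ring
      exact le_of_mul_le_mul_left h7 (pow_pos hC0 3)
    refine dom_fin w h1 h2 hx hD1 (hCϖ.trans hCl) ?_
    have hlC : C < w l := by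
      have h8 : C * ϖ ≤ (w l * ϖ) * ϖ := by
        calc C * ϖ ≤ w l * D := hCl
          _ ≤ w l * ϖ ^ 2 := mul_le_mul' le_rfl hD
          _ = (w l * ϖ) * ϖ := by ring
      have h9 := le_of_mul_le_mul_right h8 hϖ0
      have hl0 : 0 < w l := by
        by_contra hcon
        rw [not_lt, nonpos_iff_eq_zero] at hcon
        rw [hcon, zero_mul] at h9
        exact absurd hC0 (not_lt.2 h9)
      exact lt_of_le_of_lt h9 (mul_lt_of_lt_one_right hl0 hϖ1)
    rw [hxC]
    exact pow_lt_pow_left₀ hlC zero_le two_ne_zero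

end Pool.Agent.K4H9.SP
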