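import Pool.Agent.R425.G.Cq
import Pool.Agent.K4H9.SP.ValB

/-!
# A ramified quadratic extension of a local field with uniformizer two
-/

set_option autoImplicit false
set_option linter.all false

open scoped NNReal

namespace Pool.Agent.K4H9.SP

open Pool.Agent.R425.G (LD)

variable {L Ω : Type} [Field L] [Field Ω] [Algebra L Ω] [IsGalois L Ω]

theorem fixedL {x : Ω} (h : ∀ σ : Ω ≃ₐ[L] Ω, σ x = x) : ∃ y : L, algebraMap L Ω y = x := by
  have h1 : x ∈ (⊥ : IntermediateField L Ω) := by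
    rw [← InfiniteGalois.fixedField_bot]
    rw [IntermediateField.mem_fixedField_iff]
    intro σ _
    exact h σ
  exact IntermediateField.mem_bot.1 h1

/-- the quadratic data: `s ^ 2 = d`, `s` changes sign under `τ₀` -/
structure QD (s : Ω) (τ₀ : Ω ≃ₐ[L] Ω) : Prop where
  two : (2 : Ω) ≠ 0
  sgn : ∀ τ : Ω ≃ₐ[L] Ω, τ s = s ∨ τ s = -s
  s0 : s ≠ 0
  neg : τ₀ s = -s

/-- in the quadratic extension -/
def FF (L : Type) {Ω : Type} [Field L] [Field Ω] [Algebra L Ω] (s a : Ω) : Prop :=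
  ∀ τ : Ω ≃ₐ[L] Ω, τ s = s → τ a = a

theorem FF.div {s a b : Ω} (ha : FF L s a) (hb : FF L s b) : FF L s (a / b) := by
  intro τ h
  rw [map_div₀, ha τ h, hb τ h]

variable {s : Ω} {τ₀ : Ω ≃ₐ[L] Ω} (h : QD s τ₀)
include h

theorem QD.neg' {τ : Ω ≃ₐ[L] Ω} (hτ : ¬ τ s = s) : τ s = -s := (h.sgn τ).resolve_left hτ

theorem QD.act {a : Ω} (ha : FF L s a) {τ : Ω ≃ₐ[L] Ω} (hτ : τ s = -s) : τ a = τ₀ a := by
  have h1 : (τ₀⁻¹ * τ) s = s := by
    show τ₀⁻¹ (τ s) = s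
    have e : τ₀⁻¹ (τ₀ s) = s := by
      show (τ₀⁻¹ * τ₀) s = s
      rw [inv_mul_cancel]; rfl
    rw [hτ, ← h.neg, e]
  have h2 := ha _ h1
  have h3 : τ₀ ((τ₀⁻¹ * τ) a) = τ a := by
    show (τ₀ * (τ₀⁻¹ * τ)) a = τ a
    rw [mul_inv_cancel_left]
  rw [← h3, h2]

theorem QD.act2 {a : Ω} (ha : FF L s a) {τ : Ω ≃ₐ[L] Ω} (hτ : τ s = -s) : τ (τ₀ a) = a := by
  have h1 : (τ * τ₀) s = s := by
    show τ (τ₀ s) = s
    rw [h.neg, map_neg, hτ, neg_neg]
  exact ha _ h1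

theorem QD.act1 {a : Ω} (ha : FF L s a) {τ : Ω ≃ₐ[L] Ω} (hτ : τ s = s) : τ (τ₀ a) = τ₀ a := by
  have h1 : (τ * τ₀) s = -s := by
    show τ (τ₀ s) = -s
    rw [h.neg, map_neg, hτ]
  exact h.act ha h1

theorem QD.basis {a : Ω} (ha : FF L s a) : ∃ a0 a1 : L, a = algebraMap L Ω a0 + algebraMap L Ω a1 * s ∧
    τ₀ a = algebraMap L Ω a0 - algebraMap L Ω a1 * s := by
  obtain ⟨a0, h0⟩ := fixedL (L := L) (x := (a + τ₀ a) / 2) (by
    intro τ
    rw [map_div₀, map_add, map_ofNat]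
    rcases h.sgn τ with hτ | hτ
    · rw [ha τ hτ, h.act1 ha hτ]
    · rw [h.act ha hτ, h.act2 ha hτ, add_comm])
  obtain ⟨a1, h1⟩ := fixedL (L := L) (x := (a - τ₀ a) / (2 * s)) (by
    intro τ
    rw [map_div₀, map_sub, map_mul, map_ofNat]
    rcases h.sgn τ with hτ | hτ
    · rw [ha τ hτ, h.act1 ha hτ, hτ]
    · rw [h.act ha hτ, h.act2 ha hτ, hτ]
      have h2 := h.two
      have hs := h.s0
      field_simp
      ring)
  have h2 := h.two
  have hs := h.s0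
  refine ⟨a0, a1, ?_, ?_⟩
  · rw [h0, h1]
    field_simp
    ring
  · rw [h0, h1]
    field_simp
    ring

variable {w : Valuation Ω ℝ≥0} (hw : ∀ (σ : Ω ≃ₐ[L] Ω) (x : Ω), w (σ x) = w x)
  (hL : LD (w.comap (algebraMap L Ω)) 2)

omit h in
theorem disc2 (hL : LD (w.comap (algebraMap L Ω)) 2) {a : L} (ha : a ≠ 0) :
    ∃ n : ℤ, w (algebraMap L Ω a) = w 2 ^ n := by
  obtain ⟨n, hn⟩ := hL.disc a ha
  refine ⟨n, ?_⟩
  rw [Valuation.comap_apply, Valuation.comap_apply] at hn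
  rw [hn, Nat.cast_ofNat, map_ofNat]

omit h in
theorem w2lt (hL : LD (w.comap (algebraMap L Ω)) 2) : w 2 < 1 := by
  have := hL.lt
  rw [Valuation.comap_apply, Nat.cast_ofNat, map_ofNat] at this
  exact this

omit h in
theorem w2ne (hL : LD (w.comap (algebraMap L Ω)) 2) : w 2 ≠ 0 := by
  have := hL.ne
  rw [Valuation.comap_apply, Nat.cast_ofNat, map_ofNat] at this
  exact this

omit h in
theorem zinj (hL : LD (w.comap (algebraMap L Ω)) 2) {n m : ℤ} (hnm : w 2 ^ n = w 2 ^ m) : n = m :=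
  (zpow_right_injective₀ (pos_of_ne_zero (w2ne hL)) (w2lt hL).ne) hnm

omit h in
/-- the values of the two parts are different -/
theorem mx (hL : LD (w.comap (algebraMap L Ω)) 2) {g : Ω} (hg : w g ^ 2 = w 2) (b0 b1 : L) :
    w (algebraMap L Ω b1) * w g ≤ w (algebraMap L Ω b0 + algebraMap L Ω b1 * g) := by
  by_cases h1 : b1 = 0
  · rw [h1, map_zero, map_zero, zero_mul]; exact zero_le
  by_cases h0 : b0 = 0
  · rw [h0, map_zero, zero_add, map_mul]
  obtain ⟨n, hn⟩ := disc2 hL h0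
  obtain ⟨m, hm⟩ := disc2 hL h1
  have hp := pos_of_ne_zero (w2ne hL)
  have hne : w (algebraMap L Ω b0) ≠ w (algebraMap L Ω b1 * g) := by
    intro he
    rw [map_mul, hn, hm] at he
    have h3 := congrArg (fun z : ℝ≥0 => z ^ 2) he
    simp only [mul_pow] at h3
    rw [hg, ← zpow_natCast, ← zpow_natCast, ← zpow_mul, ← zpow_mul] at h3
    have h4 : w 2 ^ (m * (2 : ℕ)) * w 2 = w 2 ^ (m * (2 : ℕ) + 1) := by
      rw [zpow_add₀ hp.ne', zpow_one]
    rw [h4] at h3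
    have h5 := zinj hL h3
    push_cast at h5
    omega
  rw [Valuation.map_add_of_distinct_val w hne, map_mul]
  exact le_max_right _ _

variable {g : Ω} (hg : w g ^ 2 = w 2) (t : L)
  (hgs : g = algebraMap L Ω t + s)

include hg hgs hL

theorem QD.v2 {a : Ω} (ha : FF L s a) : w (a - τ₀ a) * w g ≤ w a * (w 2 * w s) := by
  obtain ⟨a0, a1, h1, h2⟩ := h.basis ha
  have e1 : a - τ₀ a = 2 * (algebraMap L Ω a1 * s) := by rw [h2]; nth_rewrite 1 [h1]; ring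
  have e2 : a = algebraMap L Ω (a0 - a1 * t) + algebraMap L Ω a1 * g := by
    rw [h1, hgs, map_sub, map_mul]; ring
  have h3 := mx hL hg (a0 - a1 * t) a1
  rw [← e2] at h3
  rw [e1, map_mul, map_mul]
  calc w 2 * (w (algebraMap L Ω a1) * w s) * w g = (w (algebraMap L Ω a1) * w g) * (w 2 * w s) := by ring
    _ ≤ w a * (w 2 * w s) := mul_le_mul' h3 le_rfl

theorem QD.v1 {a : Ω} (ha : FF L s a) (hle : w a ≤ 1) : w (a - τ₀ a) ≤ w 2 * w s := by
  obtain ⟨a0, a1, h1, h2⟩ := h.basis ha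
  have e1 : a - τ₀ a = 2 * (algebraMap L Ω a1 * s) := by rw [h2]; nth_rewrite 1 [h1]; ring
  have e2 : a = algebraMap L Ω (a0 - a1 * t) + algebraMap L Ω a1 * g := by
    rw [h1, hgs, map_sub, map_mul]; ring
  have h3 := mx hL hg (a0 - a1 * t) a1
  rw [← e2] at h3
  have h4 : w (algebraMap L Ω a1) ≤ 1 := by
    by_cases h0 : a1 = 0
    · rw [h0, map_zero, map_zero]; exact zero_le
    obtain ⟨n, hn⟩ := disc2 hL h0
    have hp := pos_of_ne_zero (w2ne hL)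
    have h5 : (w (algebraMap L Ω a1) * w g) ^ 2 ≤ 1 := pow_le_one₀ zero_le (h3.trans hle)
    rw [mul_pow, hg, hn, ← zpow_natCast, ← zpow_mul] at h5
    have h6 : w 2 ^ (n * (2 : ℕ)) * w 2 = w 2 ^ (n * (2 : ℕ) + 1) := by
      rw [zpow_add₀ hp.ne', zpow_one]
    rw [h6] at h5
    have h7 : 0 ≤ n * (2 : ℕ) + 1 := by
      by_contra hcon
      rw [not_le] at hcon
      have := one_lt_zpow_of_neg₀ hp (w2lt hL) hcon
      exact absurd h5 (not_le.2 this)
    have h8 : 0 ≤ n := by push_cast at h7; omega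
    rw [hn]
    exact zpow_le_one₀ hp (w2lt hL).le h8
  rw [e1, map_mul, map_mul]
  calc w 2 * (w (algebraMap L Ω a1) * w s) ≤ w 2 * (1 * w s) := by gcongr
    _ = w 2 * w s := by rw [one_mul]

omit hgs in
theorem QD.v3 (hw : ∀ (σ : Ω ≃ₐ[L] Ω) (x : Ω), w (σ x) = w x) {a : Ω} (ha : FF L s a) (hlt : 1 < w a) : 1 ≤ w a * w g := by
  have ha0 : a ≠ 0 := by
    rintro rfl
    rw [map_zero] at hlt
    exact absurd hlt (not_lt.2 zero_le)
  obtain ⟨n, hn⟩ := fixedL (L := L) (x := a * τ₀ a) (by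
    intro τ
    rw [map_mul]
    rcases h.sgn τ with hτ | hτ
    · rw [ha τ hτ, h.act1 ha hτ]
    · rw [h.act ha hτ, h.act2 ha hτ, mul_comm])
  have hn0 : n ≠ 0 := by
    rintro rfl
    rw [map_zero] at hn
    rcases mul_eq_zero.1 hn.symm with h1 | h1
    · exact ha0 h1
    · exact ha0 ((map_eq_zero τ₀).1 h1)
  obtain ⟨k, hk⟩ := disc2 hL hn0
  have hp := pos_of_ne_zero (w2ne hL)
  have h1 : w a ^ 2 = w 2 ^ k := by
    rw [← hk, hn, map_mul, hw, pow_two]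
  have h2 : k < 0 := by
    by_contra hcon
    rw [not_lt] at hcon
    have h3 := zpow_le_one₀ hp (w2lt hL).le hcon
    rw [← h1] at h3
    exact absurd (one_lt_pow₀ hlt two_ne_zero) (not_lt.2 h3)
  have h4 : 1 ≤ (w a * w g) ^ 2 := by
    rw [mul_pow, hg, h1]
    have h6 : w 2 ^ k * w 2 = w 2 ^ (k + 1) := by rw [zpow_add₀ hp.ne', zpow_one]
    rw [h6]
    exact one_le_zpow_of_nonpos₀ hp (w2lt hL).le (by omega)
  by_contra hcon
  rw [not_le] at hcon
  exact absurd h4 (not_le.2 (pow_lt_one₀ zero_le hcon two_ne_zero))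

end Pool.Agent.K4H9.SP
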